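import Pool.Agent.H45.AS.Dic

/-!
# The one-point criterion
-/

namespace Pool.Agent.H45.AS

open MeasureTheory Filter Topology

variable {Ω : Type*} [m0 : MeasurableSpace Ω] {P : Measure Ω} [IsProbabilityMeasure P]
  {F : ℝ → MeasurableSpace Ω} {R S : ℝ → Ω → ℝ} {L : ℕ → ℝ → Ω → ℝ} {x : ℝ}

/-- Scaled form of the asymptotic independence for one bounded Lipschitz function with moving
centre. -/
private theorem indep_shift (h : Sys P F R S L x) (a : ℕ → ℝ) (φ : ℝ → ℝ) (M : ℝ) (hM : 0 < M)
    (hφ : ∀ u v, |φ u - φ v| ≤ M * |u - v|) (hb : ∀ u, |φ u| ≤ M) (Z : Ω → ℝ)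
    (hZ : Integrable Z P) :
    Tendsto (fun k => (∫ ω, Z ω * φ (L k 0 ω - S 0 ω - a k) ∂P) -
      (∫ ω, Z ω ∂P) * ∫ ω, φ (L k 0 ω - S 0 ω - a k) ∂P) atTop (𝓝 0) := by
  have h1 := indep0 h (fun k u => φ (u - a k) / M) (fun k => LipschitzWith.of_dist_le_mul
    fun u v => by
      rw [Real.dist_eq, Real.dist_eq, ← sub_div, abs_div, abs_of_pos hM, div_le_iff₀ hM]
      have := hφ (u - a k) (v - a k)
      simp only [sub_sub_sub_cancel_right] at this
      simp only [NNReal.coe_one, one_mul]
      linarith) (fun k u => by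
      rw [abs_div, abs_of_pos hM, div_le_one hM]
      exact hb _) Z hZ
  have h2 := h1.const_mul M
  rw [mul_zero] at h2
  refine h2.congr fun k => ?_
  have e1 : ∫ ω, Z ω * (φ (L k 0 ω - S 0 ω - a k) / M) ∂P =
      (∫ ω, Z ω * φ (L k 0 ω - S 0 ω - a k) ∂P) / M := by
    rw [← integral_div]
    refine integral_congr_ae (Eventually.of_forall fun ω => ?_)
    simp only
    ring
  have e2 : ∫ ω, φ (L k 0 ω - S 0 ω - a k) / M ∂P =
      (∫ ω, φ (L k 0 ω - S 0 ω - a k) ∂P) / M := by
    rw [integral_div]
  rw [e1, e2]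
  field_simp

private theorem cos_lip (θ u v : ℝ) : |Real.cos (θ * u) - Real.cos (θ * v)| ≤
    (|θ| + 1) * |u - v| := by
  have h1 := Real.abs_cos_sub_cos_le (θ * u) (θ * v)
  have h2 : |θ * u - θ * v| = |θ| * |u - v| := by rw [← mul_sub, abs_mul]
  rw [h2] at h1
  nlinarith [abs_nonneg (u - v)]

private theorem sin_lip (θ u v : ℝ) : |Real.sin (θ * u) - Real.sin (θ * v)| ≤
    (|θ| + 1) * |u - v| := by
  have h1 := Real.abs_sin_sub_sin_le (θ * u) (θ * v)
  have h2 : |θ * u - θ * v| = |θ| * |u - v| := by rw [← mul_sub, abs_mul]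
  rw [h2] at h1
  nlinarith [abs_nonneg (u - v)]

/-- The Fourier transform as cosine and sine integrals. -/
private theorem exp_int (θ : ℝ) (X : Ω → ℝ) (hX : Measurable X) :
    ∫ ω, Complex.exp (θ * X ω * Complex.I) ∂P =
      ((∫ ω, Real.cos (θ * X ω) ∂P : ℝ) : ℂ) + ((∫ ω, Real.sin (θ * X ω) ∂P : ℝ) : ℂ) *
        Complex.I := by
  have hc : Measurable (fun ω => Real.cos (θ * X ω)) :=
    Real.continuous_cos.measurable.comp (hX.const_mul θ)
  have hs : Measurable (fun ω => Real.sin (θ * X ω)) :=
    Real.continuous_sin.measurable.comp (hX.const_mul θ)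
  have ic : Integrable (fun ω => Real.cos (θ * X ω)) P :=
    bdd_int _ 1 hc.aestronglyMeasurable fun ω => Real.abs_cos_le_one _
  have is : Integrable (fun ω => Real.sin (θ * X ω)) P :=
    bdd_int _ 1 hs.aestronglyMeasurable fun ω => Real.abs_sin_le_one _
  rw [← integral_complex_ofReal, ← integral_complex_ofReal, ← integral_mul_const,
    ← integral_add]
  · refine integral_congr_ae (Eventually.of_forall fun ω => ?_)
    simp only
    rw [Complex.exp_mul_I]
    push_cast
    rfl
  · exact ic.ofReal
  · exact is.ofReal.mul_const _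

/-- Asymptotic factorisation of the characteristic function. -/
private theorem factor (h : Sys P F R S L x) (a : ℕ → ℝ) (θ : ℝ) :
    Tendsto (fun k => (∫ ω, Complex.exp (θ * (L k 0 ω - a k : ℝ) * Complex.I) ∂P) -
      (∫ ω, Complex.exp (θ * S 0 ω * Complex.I) ∂P) *
        ∫ ω, Complex.exp (θ * (L k 0 ω - S 0 ω - a k : ℝ) * Complex.I) ∂P) atTop (𝓝 0) := by
  have hLm : ∀ k z, Measurable (L k z) := fun k z => (h.Lm k z).mono (h.le z) le_rfl
  have hM : (0 : ℝ) < |θ| + 1 := by positivity
  have hM1 : (1 : ℝ) ≤ |θ| + 1 := by linarith [abs_nonneg θ]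
  have hcS : Measurable (fun ω => Real.cos (θ * S 0 ω)) :=
    Real.continuous_cos.measurable.comp ((h.Sm 0).const_mul θ)
  have hsS : Measurable (fun ω => Real.sin (θ * S 0 ω)) :=
    Real.continuous_sin.measurable.comp ((h.Sm 0).const_mul θ)
  have icS : Integrable (fun ω => Real.cos (θ * S 0 ω)) P :=
    bdd_int _ 1 hcS.aestronglyMeasurable fun ω => Real.abs_cos_le_one _
  have isS : Integrable (fun ω => Real.sin (θ * S 0 ω)) P :=
    bdd_int _ 1 hsS.aestronglyMeasurable fun ω => Real.abs_sin_le_one _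
  have hD : ∀ k, Measurable (fun ω => L k 0 ω - S 0 ω - a k) := fun k =>
    ((hLm k 0).sub (h.Sm 0)).sub_const _
  have hcD : ∀ k, Measurable (fun ω => Real.cos (θ * (L k 0 ω - S 0 ω - a k))) := fun k =>
    Real.continuous_cos.measurable.comp ((hD k).const_mul θ)
  have hsD : ∀ k, Measurable (fun ω => Real.sin (θ * (L k 0 ω - S 0 ω - a k))) := fun k =>
    Real.continuous_sin.measurable.comp ((hD k).const_mul θ)
  have t1 := indep_shift h a (fun u => Real.cos (θ * u)) _ hM (cos_lip θ)
    (fun u => (Real.abs_cos_le_one _).trans hM1) _ icS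
  have t2 := indep_shift h a (fun u => Real.sin (θ * u)) _ hM (sin_lip θ)
    (fun u => (Real.abs_sin_le_one _).trans hM1) _ isS
  have t3 := indep_shift h a (fun u => Real.sin (θ * u)) _ hM (sin_lip θ)
    (fun u => (Real.abs_sin_le_one _).trans hM1) _ icS
  have t4 := indep_shift h a (fun u => Real.cos (θ * u)) _ hM (cos_lip θ)
    (fun u => (Real.abs_cos_le_one _).trans hM1) _ isS
  have tre := t1.sub t2
  have tim := t3.add t4
  rw [sub_zero] at tre
  rw [add_zero] at tim
  have tre' := (Complex.continuous_ofReal.tendsto 0).comp tre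
  have tim' := ((Complex.continuous_ofReal.tendsto 0).comp tim).mul_const Complex.I
  have tall := tre'.add tim'
  simp only [Complex.ofReal_zero, zero_mul, add_zero] at tall
  refine tall.congr fun k => ?_
  simp only [Function.comp]
  rw [exp_int θ (fun ω => L k 0 ω - a k) ((hLm k 0).sub_const _), exp_int θ (S 0) (h.Sm 0),
    exp_int θ (fun ω => L k 0 ω - S 0 ω - a k) (hD k)]
  have ec : ∫ ω, Real.cos (θ * (L k 0 ω - a k)) ∂P =
      (∫ ω, Real.cos (θ * S 0 ω) * Real.cos (θ * (L k 0 ω - S 0 ω - a k)) ∂P) -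
      ∫ ω, Real.sin (θ * S 0 ω) * Real.sin (θ * (L k 0 ω - S 0 ω - a k)) ∂P := by
    rw [← integral_sub]
    · refine integral_congr_ae (Eventually.of_forall fun ω => ?_)
      simp only
      rw [← Real.cos_add]
      congr 1
      ring
    · exact icS.mul_bdd (c := 1) (hcD k).aestronglyMeasurable (Eventually.of_forall fun ω => by
        rw [Real.norm_eq_abs]
        exact Real.abs_cos_le_one _)
    · exact isS.mul_bdd (c := 1) (hsD k).aestronglyMeasurable (Eventually.of_forall fun ω => by
        rw [Real.norm_eq_abs]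
        exact Real.abs_sin_le_one _)
  have es : ∫ ω, Real.sin (θ * (L k 0 ω - a k)) ∂P =
      (∫ ω, Real.cos (θ * S 0 ω) * Real.sin (θ * (L k 0 ω - S 0 ω - a k)) ∂P) +
      ∫ ω, Real.sin (θ * S 0 ω) * Real.cos (θ * (L k 0 ω - S 0 ω - a k)) ∂P := by
    rw [← integral_add]
    · refine integral_congr_ae (Eventually.of_forall fun ω => ?_)
      simp only
      rw [add_comm (Real.cos (θ * S 0 ω) * _), ← Real.sin_add]
      congr 1
      ring
    · exact icS.mul_bdd (c := 1) (hsD k).aestronglyMeasurable (Eventually.of_forall fun ω => by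
        rw [Real.norm_eq_abs]
        exact Real.abs_sin_le_one _)
    · exact isS.mul_bdd (c := 1) (hcD k).aestronglyMeasurable (Eventually.of_forall fun ω => by
        rw [Real.norm_eq_abs]
        exact Real.abs_cos_le_one _)
  rw [ec, es]
  push_cast
  have hI : Complex.I * Complex.I = -1 := Complex.I_mul_I
  linear_combination (((∫ ω, Real.sin (θ * S 0 ω) ∂P : ℝ) : ℂ) *
    ((∫ ω, Real.sin (θ * (L k 0 ω - S 0 ω - a k)) ∂P : ℝ) : ℂ)) * hI

/-- Doubling: `1 - E cos (2 t X) ≤ 4 (1 - E cos (t X))`. -/
private theorem doubling (X : Ω → ℝ) (hX : Measurable X) (t : ℝ) :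
    1 - ∫ ω, Real.cos (2 * t * X ω) ∂P ≤ 4 * (1 - ∫ ω, Real.cos (t * X ω) ∂P) := by
  have hc : ∀ s : ℝ, Integrable (fun ω => Real.cos (s * X ω)) P := fun s =>
    bdd_int _ 1 (Real.continuous_cos.measurable.comp (hX.const_mul s)).aestronglyMeasurable
      fun ω => Real.abs_cos_le_one _
  have h1 : ∀ s : ℝ, 1 - ∫ ω, Real.cos (s * X ω) ∂P = ∫ ω, (1 - Real.cos (s * X ω)) ∂P := by
    intro s
    rw [integral_sub (integrable_const 1) (hc s)]
    simp
  rw [h1, h1, ← integral_const_mul]
  refine integral_mono ((integrable_const 1).sub (hc _))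
    (((integrable_const 1).sub (hc t)).const_mul 4) fun ω => ?_
  simp only
  have h2 : 2 * t * X ω = 2 * (t * X ω) := by ring
  rw [h2, Real.cos_two_mul]
  have h3 := Real.neg_one_le_cos (t * X ω)
  have h4 := Real.cos_le_one (t * X ω)
  nlinarith

/-- Convergence of characteristic functions to one near zero implies convergence to zero in
probability. -/
private theorem meas_of_cos (D : ℕ → Ω → ℝ) (hD : ∀ k, Measurable (D k)) (ε : ℝ) (hε : 0 < ε)
    (hc : ∀ θ : ℝ, |θ| < ε →
      Tendsto (fun k => ∫ ω, Complex.exp (θ * D k ω * Complex.I) ∂P) atTop (𝓝 1)) :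
    TendstoInMeasure P D atTop (fun _ => (0 : ℝ)) := by
  -- the real parts converge for every frequency
  have hre : ∀ j : ℕ, ∀ θ : ℝ, |θ| < ε * 2 ^ j →
      Tendsto (fun k => ∫ ω, Real.cos (θ * D k ω) ∂P) atTop (𝓝 1) := by
    intro j
    induction j with
    | zero =>
      intro θ hθ
      have h1 := (Complex.continuous_re.tendsto _).comp (hc θ (by simpa using hθ))
      simp only [Complex.one_re] at h1
      refine h1.congr fun k => ?_
      simp only [Function.comp]
      rw [exp_int θ (D k) (hD k)]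
      simp
    | succ j ih =>
      intro θ hθ
      have h1 := ih (θ / 2) (by
        rw [abs_div]
        have h2 : |(2 : ℝ)| = 2 := by norm_num
        rw [h2, div_lt_iff₀ (by norm_num)]
        rw [pow_succ] at hθ
        linarith)
      have h2 : Tendsto (fun k => 1 - 4 * (1 - ∫ ω, Real.cos (θ / 2 * D k ω) ∂P)) atTop
          (𝓝 1) := by
        have := ((h1.const_sub 1).const_mul 4).const_sub 1
        simpa using this
      refine tendsto_of_tendsto_of_tendsto_of_le_of_le h2 tendsto_const_nhds (fun k => ?_)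
        (fun k => ?_)
      · have h3 := doubling (P := P) (D k) (hD k) (θ / 2)
        have h4 : 2 * (θ / 2) = θ := by ring
        rw [h4] at h3
        linarith
      · have h5 := norm_integral_le_of_norm_le_const (μ := P)
          (f := fun ω => Real.cos (θ * D k ω)) (C := 1)
          (Eventually.of_forall fun ω => by
            rw [Real.norm_eq_abs]
            exact Real.abs_cos_le_one _)
        have h6 := le_abs_self (∫ ω, Real.cos (θ * D k ω) ∂P)
        rw [Real.norm_eq_abs, probReal_univ, mul_one] at h5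
        linarith
  have hre' : ∀ θ : ℝ, Tendsto (fun k => ∫ ω, Real.cos (θ * D k ω) ∂P) atTop (𝓝 1) := by
    intro θ
    obtain ⟨j, hj⟩ := pow_unbounded_of_one_lt (|θ| / ε) (one_lt_two (α := ℝ))
    refine hre j θ ?_
    rw [div_lt_iff₀ hε] at hj
    linarith
  -- the characteristic functions converge to one
  have hchar : ∀ θ : ℝ,
      Tendsto (fun k => ∫ ω, Complex.exp (θ * D k ω * Complex.I) ∂P) atTop (𝓝 1) := by
    intro θ
    have hsin : Tendsto (fun k => ∫ ω, Real.sin (θ * D k ω) ∂P) atTop (𝓝 0) := by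
      have hsq : Tendsto (fun k => 2 * (1 - ∫ ω, Real.cos (θ * D k ω) ∂P)) atTop (𝓝 0) := by
        have := ((hre' θ).const_sub 1).const_mul 2
        simpa using this
      have hbd : ∀ k, (∫ ω, Real.sin (θ * D k ω) ∂P) ^ 2 ≤
          2 * (1 - ∫ ω, Real.cos (θ * D k ω) ∂P) := by
        intro k
        have hcm : Measurable (fun ω => Real.cos (θ * D k ω)) :=
          Real.continuous_cos.measurable.comp ((hD k).const_mul θ)
        have hsm : Measurable (fun ω => Real.sin (θ * D k ω)) :=
          Real.continuous_sin.measurable.comp ((hD k).const_mul θ)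
        have ic : Integrable (fun ω => Real.cos (θ * D k ω)) P :=
          bdd_int _ 1 hcm.aestronglyMeasurable fun ω => Real.abs_cos_le_one _
        have is : Integrable (fun ω => Real.sin (θ * D k ω)) P :=
          bdd_int _ 1 hsm.aestronglyMeasurable fun ω => Real.abs_sin_le_one _
        have is2 : Integrable (fun ω => Real.sin (θ * D k ω) ^ 2) P :=
          bdd_int _ 1 (hsm.pow_const 2).aestronglyMeasurable fun ω => by
            rw [abs_pow]
            have := Real.abs_sin_le_one (θ * D k ω)
            exact pow_le_one₀ (abs_nonneg _) this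
        set b : ℝ := ∫ ω, Real.sin (θ * D k ω) ∂P with hb
        have h4 : 0 ≤ ∫ ω, (Real.sin (θ * D k ω) - b) ^ 2 ∂P :=
          integral_nonneg fun ω => sq_nonneg _
        have h5 : ∫ ω, (Real.sin (θ * D k ω) - b) ^ 2 ∂P =
            (∫ ω, Real.sin (θ * D k ω) ^ 2 ∂P) - b ^ 2 := by
          have h6 : ∀ ω, (Real.sin (θ * D k ω) - b) ^ 2 =
              Real.sin (θ * D k ω) ^ 2 - 2 * b * Real.sin (θ * D k ω) + b ^ 2 := by
            intro ω
            ring
          simp_rw [h6]
          have h7 : Integrable (fun ω => Real.sin (θ * D k ω) ^ 2 -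
              2 * b * Real.sin (θ * D k ω)) P := is2.sub (is.const_mul _)
          rw [integral_add h7 (integrable_const _), integral_sub is2 (is.const_mul _),
            integral_const_mul, ← hb]
          simp
          ring
        have h8 : ∫ ω, Real.sin (θ * D k ω) ^ 2 ∂P ≤
            ∫ ω, 2 * (1 - Real.cos (θ * D k ω)) ∂P := by
          refine integral_mono is2 (((integrable_const 1).sub ic).const_mul 2) fun ω => ?_
          simp only
          have h9 := Real.sin_sq_add_cos_sq (θ * D k ω)
          have h10 := Real.cos_le_one (θ * D k ω)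
          nlinarith [sq_nonneg (1 - Real.cos (θ * D k ω))]
        rw [integral_const_mul, integral_sub (integrable_const 1) ic] at h8
        simp only [integral_const, probReal_univ, smul_eq_mul, mul_one] at h8
        linarith
      have h11 : Tendsto (fun k => (∫ ω, Real.sin (θ * D k ω) ∂P) ^ 2) atTop (𝓝 0) :=
        squeeze_zero (fun k => sq_nonneg _) hbd hsq
      have h12 := h11.sqrt
      simp only [Real.sqrt_sq_eq_abs, Real.sqrt_zero] at h12
      exact (tendsto_zero_iff_abs_tendsto_zero _).mpr h12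
    have h13 := ((Complex.continuous_ofReal.tendsto _).comp (hre' θ)).add
      (((Complex.continuous_ofReal.tendsto _).comp hsin).mul_const Complex.I)
    simp only [Complex.ofReal_one, Complex.ofReal_zero, zero_mul, add_zero] at h13
    refine h13.congr fun k => ?_
    simp only [Function.comp]
    rw [exp_int θ (D k) (hD k)]
  -- Levy's theorem
  set μ : ℕ → ProbabilityMeasure ℝ := fun k =>
    ⟨P.map (D k), Measure.isProbabilityMeasure_map (hD k).aemeasurable⟩ with hμ
  set μ0 : ProbabilityMeasure ℝ := ⟨Measure.dirac 0, inferInstance⟩ with hμ0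
  have hlevy : Tendsto μ atTop (𝓝 μ0) := by
    rw [ProbabilityMeasure.tendsto_iff_tendsto_charFun]
    intro t
    have e0 : charFun (μ0 : Measure ℝ) t = 1 := by
      rw [charFun_apply_real]
      change ∫ y : ℝ, Complex.exp (t * y * Complex.I) ∂(Measure.dirac 0) = 1
      simp
    rw [e0]
    refine (hchar t).congr fun k => ?_
    rw [charFun_apply_real]
    change _ = ∫ y : ℝ, Complex.exp (t * y * Complex.I) ∂(P.map (D k))
    rw [integral_map (hD k).aemeasurable]
    exact (by fun_prop : Measurable fun y : ℝ => Complex.exp (t * y * Complex.I)).aestronglyMeasurable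
  rw [ProbabilityMeasure.tendsto_iff_forall_integral_tendsto] at hlevy
  rw [tendstoInMeasure_iff_measureReal_dist]
  intro δ hδ
  -- the test function
  set f : BoundedContinuousFunction ℝ ℝ := BoundedContinuousFunction.ofNormedAddCommGroup
    (fun u : ℝ => min (|u| / δ) 1) (by fun_prop) 1 (fun u => by
      rw [Real.norm_eq_abs, abs_of_nonneg (le_min (by positivity) zero_le_one)]
      exact min_le_right _ _) with hf
  have hfv : ∀ u, f u = min (|u| / δ) 1 := fun u => rfl
  have h1 := hlevy f
  have e0 : ∫ u, f u ∂(μ0 : Measure ℝ) = 0 := by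
    change ∫ u, f u ∂(Measure.dirac (0 : ℝ)) = 0
    rw [integral_dirac, hfv]
    simp
  rw [e0] at h1
  have e1 : ∀ k, ∫ u, f u ∂(μ k : Measure ℝ) = ∫ ω, f (D k ω) ∂P := by
    intro k
    change ∫ u, f u ∂(P.map (D k)) = _
    rw [integral_map (hD k).aemeasurable f.continuous.measurable.aestronglyMeasurable]
  simp_rw [e1] at h1
  refine squeeze_zero (fun k => measureReal_nonneg) (fun k => ?_) h1
  have hfi : Integrable (fun ω => f (D k ω)) P :=
    bdd_int _ 1 (f.continuous.measurable.comp (hD k)).aestronglyMeasurable fun ω => by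
      rw [hfv, abs_of_nonneg (le_min (by positivity) zero_le_one)]
      exact min_le_right _ _
  have hset : MeasurableSet {ω | δ ≤ dist (D k ω) 0} :=
    measurableSet_le measurable_const ((hD k).dist measurable_const)
  have h2 : ∫ ω, ({ω | δ ≤ dist (D k ω) 0}.indicator (fun _ => (1 : ℝ)) ω) ∂P ≤
      ∫ ω, f (D k ω) ∂P := by
    refine integral_mono ((integrable_const 1).indicator hset) hfi fun ω => ?_
    rw [hfv]
    by_cases hω : δ ≤ dist (D k ω) 0
    · rw [Set.indicator_of_mem (by exact hω)]
      rw [Real.dist_eq, sub_zero] at hω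
      refine le_min ?_ le_rfl
      rw [le_div_iff₀ hδ]
      linarith
    · rw [Set.indicator_of_notMem (by exact hω)]
      exact le_min (by positivity) zero_le_one
  rw [integral_indicator_const _ hset] at h2
  simpa using h2

/-- One-point criterion with characteristic functions near zero. -/
theorem oneptc0 (h : Sys P F R S L x) (a : ℕ → ℝ) (ε : ℝ) (hε : 0 < ε)
    (hc : ∀ θ : ℝ, |θ| < ε →
      Tendsto (fun k => ∫ ω, Complex.exp (θ * (L k 0 ω - a k : ℝ) * Complex.I) ∂P) atTop
        (𝓝 (∫ ω, Complex.exp (θ * S 0 ω * Complex.I) ∂P))) :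
    TendstoInMeasure P (fun k ω => L k 0 ω - a k) atTop (S 0) := by
  have hLm : ∀ k z, Measurable (L k z) := fun k z => (h.Lm k z).mono (h.le z) le_rfl
  have hD : ∀ k, Measurable (fun ω => L k 0 ω - S 0 ω - a k) := fun k =>
    ((hLm k 0).sub (h.Sm 0)).sub_const _
  -- the characteristic function of the sheet value is non-zero near zero
  have hcont : Continuous (fun θ : ℝ => charFun (P.map (S 0)) θ) := by
    have : IsFiniteMeasure (P.map (S 0)) := by infer_instance
    exact continuous_charFun
  have hch : ∀ θ : ℝ, charFun (P.map (S 0)) θ = ∫ ω, Complex.exp (θ * S 0 ω * Complex.I) ∂P := by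
    intro θ
    rw [charFun_apply_real, integral_map (h.Sm 0).aemeasurable]
    exact (by fun_prop : Measurable fun y : ℝ => Complex.exp (θ * y * Complex.I)).aestronglyMeasurable
  have h0 : charFun (P.map (S 0)) 0 = 1 := by
    rw [hch]
    simp
  obtain ⟨η, hη, hηb⟩ : ∃ η > 0, ∀ θ : ℝ, |θ| < η → charFun (P.map (S 0)) θ ≠ 0 := by
    have h1 : ∀ᶠ θ in 𝓝 (0 : ℝ), charFun (P.map (S 0)) θ ≠ 0 :=
      hcont.continuousAt.eventually_ne (by rw [h0]; exact one_ne_zero)
    obtain ⟨η, hη, hb⟩ := Metric.eventually_nhds_iff.mp h1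
    exact ⟨η, hη, fun θ hθ => hb (by simpa [Real.dist_eq] using hθ)⟩
  have hDm : TendstoInMeasure P (fun k ω => L k 0 ω - S 0 ω - a k) atTop (fun _ => (0 : ℝ)) := by
    refine meas_of_cos _ hD (min ε η) (lt_min hε hη) fun θ hθ => ?_
    have hθ1 : |θ| < ε := hθ.trans_le (min_le_left _ _)
    have hθ2 : |θ| < η := hθ.trans_le (min_le_right _ _)
    have hne := hηb θ hθ2
    rw [hch] at hne
    have h2 := (hc θ hθ1).sub (factor h a θ)
    simp only [sub_sub_cancel, sub_zero] at h2
    have h3 := h2.const_mul ((∫ ω, Complex.exp (θ * S 0 ω * Complex.I) ∂P)⁻¹)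
    rw [inv_mul_cancel₀ hne] at h3
    refine h3.congr fun k => ?_
    rw [← mul_assoc, inv_mul_cancel₀ hne, one_mul]
  rw [tendstoInMeasure_iff_dist] at hDm ⊢
  intro δ hδ
  refine (hDm δ hδ).congr fun k => ?_
  congr 1
  ext ω
  simp only [Set.mem_ofPred_eq, Real.dist_eq]
  have : L k 0 ω - S 0 ω - a k - 0 = L k 0 ω - a k - S 0 ω := by ring
  rw [this]

/-- One-point criterion: convergence in probability iff convergence in law. -/
theorem onept0 (h : Sys P F R S L x) (a : ℕ → ℝ) :
    TendstoInMeasure P (fun k ω => L k 0 ω - a k) atTop (S 0) ↔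
      ∀ f : BoundedContinuousFunction ℝ ℝ,
        Tendsto (fun k => ∫ ω, f (L k 0 ω - a k) ∂P) atTop (𝓝 (∫ ω, f (S 0 ω) ∂P)) := by
  have hLm : ∀ k z, Measurable (L k z) := fun k z => (h.Lm k z).mono (h.le z) le_rfl
  constructor
  · intro ha f
    refine tendsto_of_subseq_tendsto fun ns hns => ?_
    have h1 : TendstoInMeasure P (fun k ω => L (ns k) 0 ω - a (ns k)) atTop (S 0) :=
      ha.comp hns
    obtain ⟨ms, -, hms⟩ := h1.exists_seq_tendsto_ae
    refine ⟨ms, ?_⟩
    refine tendsto_integral_of_dominated_convergence (fun _ => ‖f‖)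
      (fun n => (f.continuous.measurable.comp ((hLm _ 0).sub_const _)).aestronglyMeasurable)
      (integrable_const _)
      (fun n => Eventually.of_forall fun ω => f.norm_coe_le_norm _) ?_
    filter_upwards [hms] with ω hω
    exact (f.continuous.tendsto _).comp hω
  · intro hf
    refine oneptc0 h a 1 one_pos fun θ _ => ?_
    set fc : BoundedContinuousFunction ℝ ℝ := BoundedContinuousFunction.ofNormedAddCommGroup
      (fun u : ℝ => Real.cos (θ * u)) (by fun_prop) 1 (fun u => by
        rw [Real.norm_eq_abs]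
        exact Real.abs_cos_le_one _) with hfc
    set fs : BoundedContinuousFunction ℝ ℝ := BoundedContinuousFunction.ofNormedAddCommGroup
      (fun u : ℝ => Real.sin (θ * u)) (by fun_prop) 1 (fun u => by
        rw [Real.norm_eq_abs]
        exact Real.abs_sin_le_one _) with hfs
    have h1 := hf fc
    have h2 := hf fs
    have h3 := ((Complex.continuous_ofReal.tendsto _).comp h1).add
      (((Complex.continuous_ofReal.tendsto _).comp h2).mul_const Complex.I)
    rw [exp_int θ (S 0) (h.Sm 0)]
    refine h3.congr fun k => ?_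
    rw [exp_int θ (fun ω => L k 0 ω - a k) ((hLm k 0).sub_const _)]
    rfl

end Pool.Agent.H45.AS
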