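import Pool.Agent.H45.AS.Can
import Pool.Agent.H45.AS.Law

/-!
# MP_0a6d57_pr: the abstract theorem

For abstract data `Sys P F R S L x`: dichotomy for each centring, asymptotic independence,
one-point criterion, canonical centring.
-/

namespace Pool.Agent.H45.AS

open MeasureTheory Filter Topology

variable {Ω : Type*} [m0 : MeasurableSpace Ω] {P : Measure Ω} [IsProbabilityMeasure P]
  {F : ℝ → MeasurableSpace Ω} {R S : ℝ → Ω → ℝ} {L : ℕ → ℝ → Ω → ℝ} {x : ℝ}

/-- Dichotomy for each centring: either the centred values converge almost surely to the sheet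
value plus a constant, or they diverge almost surely. -/
theorem dich (h : Sys P F R S L x) (a : ℕ → ℝ) :
    (∃ c : ℝ, ∀ᵐ ω ∂P, Tendsto (fun k => L k 0 ω - a k) atTop (𝓝 (S 0 ω + c))) ∨
      ∀ᵐ ω ∂P, ¬ ∃ l : ℝ, Tendsto (fun k => L k 0 ω - a k) atTop (𝓝 l) :=
  dich0 h a

/-- Asymptotic independence of `L k 0 - S 0` from every integrable random variable, uniformly
over bounded Lipschitz test functions. -/
theorem indep (h : Sys P F R S L x) (φ : ℕ → ℝ → ℝ) (hφ : ∀ k, LipschitzWith 1 (φ k))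
    (hb : ∀ k u, |φ k u| ≤ 1) (Z : Ω → ℝ) (hZ : Integrable Z P) :
    Tendsto (fun k => (∫ ω, Z ω * φ k (L k 0 ω - S 0 ω) ∂P) -
      (∫ ω, Z ω ∂P) * ∫ ω, φ k (L k 0 ω - S 0 ω) ∂P) atTop (𝓝 0) :=
  indep0 h φ hφ hb Z hZ

/-- One-point criterion: convergence in probability iff convergence in law. -/
theorem onept (h : Sys P F R S L x) (a : ℕ → ℝ) :
    TendstoInMeasure P (fun k ω => L k 0 ω - a k) atTop (S 0) ↔
      ∀ f : BoundedContinuousFunction ℝ ℝ,
        Tendsto (fun k => ∫ ω, f (L k 0 ω - a k) ∂P) atTop (𝓝 (∫ ω, f (S 0 ω) ∂P)) :=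
  onept0 h a

/-- One-point criterion with characteristic functions near zero: convergence of the
characteristic functions on a neighbourhood of zero implies convergence in probability. -/
theorem oneptc (h : Sys P F R S L x) (a : ℕ → ℝ) (ε : ℝ) (hε : 0 < ε)
    (hc : ∀ θ : ℝ, |θ| < ε →
      Tendsto (fun k => ∫ ω, Complex.exp (θ * (L k 0 ω - a k : ℝ) * Complex.I) ∂P) atTop
        (𝓝 (∫ ω, Complex.exp (θ * S 0 ω * Complex.I) ∂P))) :
    TendstoInMeasure P (fun k ω => L k 0 ω - a k) atTop (S 0) :=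
  oneptc0 h a ε hε hc

/-- Canonical centring: it exists, is unique, and decides both forms of the question. -/
theorem canon (h : Sys P F R S L x) :
    (∃! b : ℕ → ℝ, ∀ k, ∫ ω, Real.arctan (L k 0 ω - b k) ∂P = ∫ ω, Real.arctan (S 0 ω) ∂P) ∧
    ∀ b : ℕ → ℝ, (∀ k, ∫ ω, Real.arctan (L k 0 ω - b k) ∂P = ∫ ω, Real.arctan (S 0 ω) ∂P) →
      ((∃ a : ℕ → ℝ, ∀ᵐ ω ∂P, Tendsto (fun k => L k 0 ω - a k) atTop (𝓝 (S 0 ω))) ↔
        ∀ᵐ ω ∂P, Tendsto (fun k => L k 0 ω - b k) atTop (𝓝 (S 0 ω))) ∧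
      ((∃ a : ℕ → ℝ, TendstoInMeasure P (fun k ω => L k 0 ω - a k) atTop (S 0)) ↔
        TendstoInMeasure P (fun k ω => L k 0 ω - b k) atTop (S 0)) :=
  canon0 h

end Pool.Agent.H45.AS
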