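import Mathlib

/-!
# Averages of bounded variables with decaying covariances; random shifts
-/

namespace Pool.Agent.H45.AS

open MeasureTheory Filter Topology

/-- Second moment of the sum: covariances bounded by `α` of the distance. -/
private theorem sum_sq {Ω : Type*} [MeasurableSpace Ω] {P : Measure Ω} [IsProbabilityMeasure P]
    (V : ℕ → Ω → ℝ) (C : ℝ) (hV : ∀ i, AEStronglyMeasurable (V i) P)
    (hb : ∀ i ω, |V i ω| ≤ C) (α : ℕ → ℝ) (hα : ∀ i l, |∫ ω, V i ω * V (i + l) ω ∂P| ≤ α l)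
    (n : ℕ) :
    ∫ ω, (∑ i ∈ Finset.range n, V i ω) ^ 2 ∂P ≤ 2 * n * ∑ l ∈ Finset.range n, α l := by
  have hα0 : ∀ l, 0 ≤ α l := fun l => (abs_nonneg _).trans (hα 0 l)
  have hVb : ∀ i, ∀ᵐ ω ∂P, ‖V i ω‖ ≤ C := fun i =>
    Eventually.of_forall fun ω => by simpa [Real.norm_eq_abs] using hb i ω
  have hVi : ∀ i, Integrable (V i) P := fun i =>
    memLp_one_iff_integrable.mp (MemLp.of_bound (hV i) C (hVb i))
  have hVV : ∀ i j, Integrable (fun ω => V i ω * V j ω) P := fun i j =>
    (hVi i).mul_bdd (c := C) (hV j) (hVb j)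
  induction n with
  | zero => simp
  | succ n ih =>
    have hSV : Integrable (fun ω => (∑ i ∈ Finset.range n, V i ω) * V n ω) P := by
      simp_rw [Finset.sum_mul]
      exact integrable_finsetSum _ fun i _ => hVV i n
    have hSS : Integrable (fun ω => (∑ i ∈ Finset.range n, V i ω) ^ 2) P := by
      simp_rw [pow_two, Finset.sum_mul, Finset.mul_sum]
      exact integrable_finsetSum _ fun i _ => integrable_finsetSum _ fun j _ => hVV i j
    have hexp : ∀ ω, (∑ i ∈ Finset.range (n + 1), V i ω) ^ 2 =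
        (∑ i ∈ Finset.range n, V i ω) ^ 2 + (2 * ((∑ i ∈ Finset.range n, V i ω) * V n ω) +
          V n ω * V n ω) := by
      intro ω
      rw [Finset.sum_range_succ]
      ring
    simp_rw [hexp]
    have hc1 : ∫ ω, (∑ i ∈ Finset.range n, V i ω) * V n ω ∂P ≤
        ∑ i ∈ Finset.range n, α (i + 1) := by
      simp_rw [Finset.sum_mul]
      rw [integral_finsetSum _ fun i _ => hVV i n, ← Finset.sum_range_reflect (fun i => α (i + 1))]
      refine Finset.sum_le_sum fun i hi => ?_
      have hi' := Finset.mem_range.mp hi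
      have h1 : i + (n - i) = n := by omega
      have h2 : n - 1 - i + 1 = n - i := by omega
      have h3 := hα i (n - i)
      rw [h1] at h3
      rw [h2]
      exact (le_abs_self _).trans h3
    have hc2 : ∫ ω, V n ω * V n ω ∂P ≤ α 0 := by
      have h3 := hα n 0
      rw [add_zero] at h3
      exact (le_abs_self _).trans h3
    have hI : ∫ ω, ((∑ i ∈ Finset.range n, V i ω) ^ 2 +
        (2 * ((∑ i ∈ Finset.range n, V i ω) * V n ω) + V n ω * V n ω)) ∂P =
        (∫ ω, (∑ i ∈ Finset.range n, V i ω) ^ 2 ∂P) +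
        (2 * (∫ ω, (∑ i ∈ Finset.range n, V i ω) * V n ω ∂P) + ∫ ω, V n ω * V n ω ∂P) := by
      have hB : Integrable (fun ω => 2 * ((∑ i ∈ Finset.range n, V i ω) * V n ω)) P :=
        hSV.const_mul 2
      have hD : Integrable (fun ω => 2 * ((∑ i ∈ Finset.range n, V i ω) * V n ω) +
          V n ω * V n ω) P := hB.add (hVV n n)
      rw [integral_add hSS hD, integral_add hB (hVV n n), integral_const_mul]
    rw [hI]
    have hA : ∑ l ∈ Finset.range (n + 1), α l = ∑ i ∈ Finset.range n, α (i + 1) + α 0 :=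
      Finset.sum_range_succ' α n
    have hA' : ∑ l ∈ Finset.range (n + 1), α l = ∑ l ∈ Finset.range n, α l + α n :=
      Finset.sum_range_succ α n
    have hn : (0 : ℝ) ≤ n := Nat.cast_nonneg n
    have h4 : 2 * (n : ℝ) * ∑ l ∈ Finset.range n, α l ≤
        2 * n * ∑ l ∈ Finset.range (n + 1), α l := by
      rw [hA']
      have := hα0 n
      gcongr
      linarith
    have h5 := hα0 0
    push_cast
    nlinarith [h4, h5, hc1, hc2, ih, hA]

/-- Averages of bounded variables whose covariances decay tend to zero in mean square. -/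
theorem cesaro {Ω : Type*} [MeasurableSpace Ω] {P : Measure Ω} [IsProbabilityMeasure P]
    (V : ℕ → Ω → ℝ) (C : ℝ) (hV : ∀ i, AEStronglyMeasurable (V i) P)
    (hb : ∀ i ω, |V i ω| ≤ C) (α : ℕ → ℝ) (hα : ∀ i l, |∫ ω, V i ω * V (i + l) ω ∂P| ≤ α l)
    (h0 : Tendsto α atTop (𝓝 0)) :
    Tendsto (fun n : ℕ => ∫ ω, ((∑ i ∈ Finset.range n, V i ω) / n) ^ 2 ∂P) atTop (𝓝 0) := by
  have h1 : Tendsto (fun n : ℕ => 2 * ((n : ℝ)⁻¹ * ∑ l ∈ Finset.range n, α l)) atTop (𝓝 0) := by
    have := (Filter.Tendsto.cesaro h0).const_mul 2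
    simpa using this
  refine squeeze_zero (fun n => integral_nonneg fun ω => sq_nonneg _) (fun n => ?_) h1
  rcases Nat.eq_zero_or_pos n with h | h
  · subst h
    simp
  · have hn : (0 : ℝ) < n := by exact_mod_cast h
    have h2 := sum_sq V C hV hb α hα n
    have h3 : ∀ ω, ((∑ i ∈ Finset.range n, V i ω) / n) ^ 2 =
        ((n : ℝ) ^ 2)⁻¹ * (∑ i ∈ Finset.range n, V i ω) ^ 2 := by
      intro ω
      field_simp
    simp_rw [h3]
    rw [integral_const_mul]
    calc ((n : ℝ) ^ 2)⁻¹ * ∫ ω, (∑ i ∈ Finset.range n, V i ω) ^ 2 ∂P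
        ≤ ((n : ℝ) ^ 2)⁻¹ * (2 * n * ∑ l ∈ Finset.range n, α l) := by gcongr
      _ = 2 * ((n : ℝ)⁻¹ * ∑ l ∈ Finset.range n, α l) := by
          field_simp

/-- Convergence in mean at every deterministic point implies convergence in mean at every random
point, for uniformly bounded 1-Lipschitz functions. -/
theorem lip_rand {Ω : Type*} [MeasurableSpace Ω] {P : Measure Ω} [IsProbabilityMeasure P]
    (A : ℕ → ℝ → Ω → ℝ) (Φ : ℝ → ℝ) (hA : ∀ n v w ω, |A n v ω - A n w ω| ≤ |v - w|)
    (hΦ : ∀ v w, |Φ v - Φ w| ≤ |v - w|) (hAb : ∀ n v ω, |A n v ω| ≤ 2) (hΦb : ∀ v, |Φ v| ≤ 2)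
    (hAm : ∀ n v, Measurable (A n v))
    (hl : ∀ v, Tendsto (fun n => ∫ ω, |A n v ω - Φ v| ∂P) atTop (𝓝 0))
    (s : Ω → ℝ) (hs : Measurable s) :
    Tendsto (fun n => ∫ ω, |A n (s ω) ω - Φ (s ω)| ∂P) atTop (𝓝 0) := by
  have hΦc : Continuous Φ := by
    have h1 : LipschitzWith 1 Φ := LipschitzWith.of_dist_le_mul fun v w => by
      simpa [Real.dist_eq] using hΦ v w
    exact h1.continuous
  have hsm : StronglyMeasurable s := hs.stronglyMeasurable
  set g : ℕ → Ω → ℝ := fun k ω => min (2 * |s ω - hsm.approx k ω|) 8 with hg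
  have hgm : ∀ k, Measurable (g k) := by
    intro k
    have : Measurable (fun ω => hsm.approx k ω) := (hsm.approx k).measurable
    simp only [hg]
    fun_prop
  have hg0 : ∀ k ω, 0 ≤ g k ω := fun k ω => by
    simp only [hg]
    positivity
  have hg8 : ∀ k ω, g k ω ≤ 8 := fun k ω => min_le_right _ _
  have hgi : ∀ k, Integrable (g k) P := fun k =>
    memLp_one_iff_integrable.mp (MemLp.of_bound (hgm k).aestronglyMeasurable 8
      (Eventually.of_forall fun ω => by
        rw [Real.norm_eq_abs, abs_of_nonneg (hg0 k ω)]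
        exact hg8 k ω))
  have hglim : Tendsto (fun k => ∫ ω, g k ω ∂P) atTop (𝓝 0) := by
    have h2 := tendsto_integral_of_dominated_convergence (μ := P) (F := g) (f := fun _ => 0)
      (fun _ => 8) (fun k => (hgm k).aestronglyMeasurable) (integrable_const 8)
      (fun k => Eventually.of_forall fun ω => by
        rw [Real.norm_eq_abs, abs_of_nonneg (hg0 k ω)]
        exact hg8 k ω)
      (Eventually.of_forall fun ω => by
        have h3 : Tendsto (fun k => hsm.approx k ω) atTop (𝓝 (s ω)) := hsm.tendsto_approx ω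
        have h4 : Tendsto (fun k => 2 * |s ω - hsm.approx k ω|) atTop
            (𝓝 (2 * |s ω - s ω|)) := ((tendsto_const_nhds.sub h3).abs).const_mul 2
        have h5 := h4.min (tendsto_const_nhds (x := (8 : ℝ)))
        simpa using h5)
    simpa using h2
  rw [Metric.tendsto_atTop]
  intro ε hε
  obtain ⟨k, hk⟩ := (hglim.eventually (gt_mem_nhds (half_pos hε))).exists
  set r : SimpleFunc Ω ℝ := hsm.approx k with hr
  have hsum : Tendsto (fun n => ∑ v ∈ r.range, ∫ ω, |A n v ω - Φ v| ∂P) atTop (𝓝 0) := by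
    have := tendsto_finsetSum r.range (fun v _ => hl v)
    simpa using this
  obtain ⟨N, hN⟩ := (hsum.eventually (gt_mem_nhds (half_pos hε))).exists_forall_of_atTop
  refine ⟨N, fun n hn => ?_⟩
  have hAi : ∀ v, Integrable (fun ω => |A n v ω - Φ v|) P := fun v =>
    memLp_one_iff_integrable.mp (MemLp.of_bound
      ((((hAm n v).sub_const (Φ v)).abs).aestronglyMeasurable) 4
      (Eventually.of_forall fun ω => by
        rw [Real.norm_eq_abs, abs_abs]
        have h6 := abs_sub (A n v ω) (Φ v)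
        have h7 := hAb n v ω
        have h8 := hΦb v
        linarith))
  have hpt : ∀ ω, |A n (s ω) ω - Φ (s ω)| ≤ g k ω + ∑ v ∈ r.range, |A n v ω - Φ v| := by
    intro ω
    have h1 : |A n (s ω) ω - Φ (s ω)| ≤ |A n (s ω) ω - A n (r ω) ω| +
        |A n (r ω) ω - Φ (r ω)| + |Φ (r ω) - Φ (s ω)| := by
      have := abs_add_three (A n (s ω) ω - A n (r ω) ω) (A n (r ω) ω - Φ (r ω))
        (Φ (r ω) - Φ (s ω))
      simpa using this
    have h2 : |A n (r ω) ω - Φ (r ω)| ≤ ∑ v ∈ r.range, |A n v ω - Φ v| :=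
      Finset.single_le_sum (f := fun v => |A n v ω - Φ v|) (fun v _ => abs_nonneg _)
        (SimpleFunc.mem_range_self r ω)
    have h3 : |A n (s ω) ω - A n (r ω) ω| + |Φ (r ω) - Φ (s ω)| ≤ g k ω := by
      refine le_min ?_ ?_
      · have h4 := hA n (s ω) (r ω) ω
        have h5 := hΦ (r ω) (s ω)
        rw [abs_sub_comm (r ω)] at h5
        linarith
      · have h6 := abs_sub (A n (s ω) ω) (A n (r ω) ω)
        have h7 := abs_sub (Φ (r ω)) (Φ (s ω))
        have h8 := hAb n (s ω) ω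
        have h9 := hAb n (r ω) ω
        have h10 := hΦb (r ω)
        have h11 := hΦb (s ω)
        linarith
    linarith
  have hsumi : Integrable (fun ω => ∑ v ∈ r.range, |A n v ω - Φ v|) P :=
    integrable_finsetSum _ fun v _ => hAi v
  have hint : ∫ ω, |A n (s ω) ω - Φ (s ω)| ∂P ≤
      (∫ ω, g k ω ∂P) + ∑ v ∈ r.range, ∫ ω, |A n v ω - Φ v| ∂P := by
    rw [← integral_finsetSum _ fun v _ => hAi v, ← integral_add (hgi k) hsumi]
    refine integral_mono_of_nonneg (Eventually.of_forall fun ω => abs_nonneg _)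
      ((hgi k).add hsumi) (Eventually.of_forall hpt)
  have hnn : 0 ≤ ∫ ω, |A n (s ω) ω - Φ (s ω)| ∂P := integral_nonneg fun ω => abs_nonneg _
  rw [Real.dist_eq, sub_zero, abs_of_nonneg hnn]
  have := hN n hn
  linarith

end Pool.Agent.H45.AS
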