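import Pool.Agent.H45.AS.Dic

/-!
# The canonical centring
-/

namespace Pool.Agent.H45.AS

open MeasureTheory Filter Topology

variable {Ω : Type*} [m0 : MeasurableSpace Ω] {P : Measure Ω} [IsProbabilityMeasure P]
  {F : ℝ → MeasurableSpace Ω} {R S : ℝ → Ω → ℝ} {L : ℕ → ℝ → Ω → ℝ} {x : ℝ}

/-- The mean of the arctangent is less than `π / 2` in absolute value. -/
private theorem mean_range (X : Ω → ℝ) (hX : Measurable X) :
    -(Real.pi / 2) < ∫ ω, Real.arctan (X ω) ∂P ∧ ∫ ω, Real.arctan (X ω) ∂P < Real.pi / 2 := by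
  have hi : Integrable (fun ω => Real.arctan (X ω)) P :=
    bdd_int _ 2 (Real.measurable_arctan.comp hX).aestronglyMeasurable fun ω => atn_bd _
  have key : ∀ f : Ω → ℝ, Integrable f P → (∀ ω, 0 < f ω) → 0 < ∫ ω, f ω ∂P := by
    intro f hf hpos
    rw [integral_pos_iff_support_of_nonneg (fun ω => (hpos ω).le) hf]
    have h1 : Function.support f = Set.univ := by
      ext ω
      simp only [Function.mem_support, Set.mem_univ, iff_true]
      exact (hpos ω).ne'
    rw [h1]
    simp
  constructor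
  · have h1 := key (fun ω => Real.arctan (X ω) + Real.pi / 2) (hi.add (integrable_const _))
      (fun ω => by linarith [Real.neg_pi_div_two_lt_arctan (X ω)])
    rw [integral_add hi (integrable_const _)] at h1
    simp at h1
    linarith
  · have h1 := key (fun ω => Real.pi / 2 - Real.arctan (X ω)) ((integrable_const _).sub hi)
      (fun ω => by linarith [Real.arctan_lt_pi_div_two (X ω)])
    rw [integral_sub (integrable_const _) hi] at h1
    simp at h1
    linarith

/-- Each value in the open range is attained by exactly one shift. -/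
private theorem shift_unique (X : Ω → ℝ) (hX : Measurable X) (m : ℝ)
    (hm1 : -(Real.pi / 2) < m) (hm2 : m < Real.pi / 2) :
    ∃! b : ℝ, ∫ ω, Real.arctan (X ω - b) ∂P = m := by
  set g : ℝ → ℝ := fun v => ∫ ω, Real.arctan (X ω + v) ∂P with hg
  have hmono : StrictMono g := fun v w hvw => mean_lt X hX v w hvw
  have hc : Continuous g := by
    have h1 : LipschitzWith 1 g := LipschitzWith.of_dist_le_mul fun v w => by
      simpa [Real.dist_eq] using mean_lip X hX v w
    exact h1.continuous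
  have hmeas : ∀ u : ℝ, Measurable (fun ω => Real.arctan (X ω + u)) := fun u =>
    Real.measurable_arctan.comp (hX.add_const u)
  have hlim : ∀ (l : Filter ℝ) (c : ℝ), Tendsto Real.arctan l (𝓝 c) →
      ∀ u : ℕ → ℝ, (∀ y : ℝ, Tendsto (fun n => y + u n) atTop l) →
      Tendsto (fun n => g (u n)) atTop (𝓝 c) := by
    intro l c hl u hu
    have h1 := tendsto_integral_of_dominated_convergence (μ := P)
      (F := fun n ω => Real.arctan (X ω + u n)) (f := fun _ => c) (fun _ => 2)
      (fun n => (hmeas _).aestronglyMeasurable) (integrable_const 2)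
      (fun n => Eventually.of_forall fun ω => by
        rw [Real.norm_eq_abs]
        exact atn_bd _)
      (Eventually.of_forall fun ω => hl.comp (hu (X ω)))
    simpa using h1
  have htop : Tendsto (fun n : ℕ => g n) atTop (𝓝 (Real.pi / 2)) :=
    hlim atTop (Real.pi / 2) (Real.tendsto_arctan_atTop.mono_right nhdsWithin_le_nhds)
      (fun n => (n : ℝ))
      (fun y => tendsto_atTop_add_const_left _ _ tendsto_natCast_atTop_atTop)
  have hbot : Tendsto (fun n : ℕ => g (-(n : ℝ))) atTop (𝓝 (-(Real.pi / 2))) :=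
    hlim atBot (-(Real.pi / 2)) (Real.tendsto_arctan_atBot.mono_right nhdsWithin_le_nhds)
      (fun n => -(n : ℝ))
      (fun y => tendsto_atBot_add_const_left _ _
        (tendsto_neg_atTop_atBot.comp tendsto_natCast_atTop_atTop))
  obtain ⟨n1, hn1⟩ := (htop.eventually (lt_mem_nhds hm2)).exists
  obtain ⟨n2, hn2⟩ := (hbot.eventually (gt_mem_nhds hm1)).exists
  have hle : -(n2 : ℝ) ≤ n1 := by
    have h1 : (0 : ℝ) ≤ n1 := Nat.cast_nonneg _
    have h2 : (0 : ℝ) ≤ n2 := Nat.cast_nonneg _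
    linarith
  obtain ⟨v, -, hv⟩ := intermediate_value_Icc hle hc.continuousOn ⟨hn2.le, hn1.le⟩
  refine ⟨-v, ?_, ?_⟩
  · simp only [sub_neg_eq_add]
    exact hv
  · intro b hb
    have h1 : g (-b) = m := by
      simp only [hg, ← sub_eq_add_neg]
      exact hb
    have h2 : -b = v := hmono.injective (h1.trans hv.symm)
    linarith

/-- If centred values converge in the mean of every arctangent shift, the canonical centring is
asymptotic to the given one. -/
private theorem centre_close (T : ℕ → Ω → ℝ) (hT : ∀ k, Measurable (T k)) (S0 : Ω → ℝ)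
    (hS0 : Measurable S0) (a b : ℕ → ℝ)
    (ha : ∀ v : ℝ, Tendsto (fun k => ∫ ω, Real.arctan (T k ω - a k + v) ∂P) atTop
      (𝓝 (∫ ω, Real.arctan (S0 ω + v) ∂P)))
    (hb : ∀ k, ∫ ω, Real.arctan (T k ω - b k) ∂P = ∫ ω, Real.arctan (S0 ω) ∂P) :
    Tendsto (fun k => a k - b k) atTop (𝓝 0) := by
  rw [Metric.tendsto_atTop]
  intro ε hε
  have h0 : ∫ ω, Real.arctan (S0 ω) ∂P = ∫ ω, Real.arctan (S0 ω + 0) ∂P := by simp
  have hup : ∫ ω, Real.arctan (S0 ω) ∂P < ∫ ω, Real.arctan (S0 ω + ε) ∂P := by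
    rw [h0]
    exact mean_lt S0 hS0 0 ε hε
  have hdn : ∫ ω, Real.arctan (S0 ω + -ε) ∂P < ∫ ω, Real.arctan (S0 ω) ∂P := by
    rw [h0]
    exact mean_lt S0 hS0 (-ε) 0 (by linarith)
  have e1 := (ha ε).eventually (lt_mem_nhds hup)
  have e2 := (ha (-ε)).eventually (gt_mem_nhds hdn)
  obtain ⟨N, hN⟩ := (e1.and e2).exists_forall_of_atTop
  refine ⟨N, fun k hk => ?_⟩
  obtain ⟨h1, h2⟩ := hN k hk
  have hm : Measurable (fun ω => T k ω - a k) := (hT k).sub_const _
  have hbk : ∫ ω, Real.arctan (T k ω - a k + (a k - b k)) ∂P = ∫ ω, Real.arctan (S0 ω) ∂P := by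
    rw [← hb k]
    refine integral_congr_ae (Eventually.of_forall fun ω => ?_)
    simp only [sub_add_sub_cancel]
  have hsm : StrictMono (fun v : ℝ => ∫ ω, Real.arctan (T k ω - a k + v) ∂P) :=
    fun v w hvw => mean_lt _ hm v w hvw
  have h3 : a k - b k < ε := by
    rw [← hbk] at h1
    exact hsm.lt_iff_lt.mp h1
  have h4 : -ε < a k - b k := by
    rw [← hbk] at h2
    exact hsm.lt_iff_lt.mp h2
  rw [Real.dist_eq, sub_zero, abs_lt]
  exact ⟨h4, h3⟩

/-- Canonical centring: it exists, is unique, and decides both forms of the question. -/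
theorem canon0 (h : Sys P F R S L x) :
    (∃! b : ℕ → ℝ, ∀ k, ∫ ω, Real.arctan (L k 0 ω - b k) ∂P = ∫ ω, Real.arctan (S 0 ω) ∂P) ∧
    ∀ b : ℕ → ℝ, (∀ k, ∫ ω, Real.arctan (L k 0 ω - b k) ∂P = ∫ ω, Real.arctan (S 0 ω) ∂P) →
      ((∃ a : ℕ → ℝ, ∀ᵐ ω ∂P, Tendsto (fun k => L k 0 ω - a k) atTop (𝓝 (S 0 ω))) ↔
        ∀ᵐ ω ∂P, Tendsto (fun k => L k 0 ω - b k) atTop (𝓝 (S 0 ω))) ∧
      ((∃ a : ℕ → ℝ, TendstoInMeasure P (fun k ω => L k 0 ω - a k) atTop (S 0)) ↔
        TendstoInMeasure P (fun k ω => L k 0 ω - b k) atTop (S 0)) := by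
  have hLm : ∀ k z, Measurable (L k z) := fun k z => (h.Lm k z).mono (h.le z) le_rfl
  obtain ⟨r1, r2⟩ := mean_range (P := P) (S 0) (h.Sm 0)
  -- convergence in probability gives convergence of the means
  have hmean : ∀ a : ℕ → ℝ, TendstoInMeasure P (fun k ω => L k 0 ω - a k) atTop (S 0) →
      ∀ v : ℝ, Tendsto (fun k => ∫ ω, Real.arctan (L k 0 ω - a k + v) ∂P) atTop
      (𝓝 (∫ ω, Real.arctan (S 0 ω + v) ∂P)) := by
    intro a ha v
    refine tendsto_of_subseq_tendsto fun ns hns => ?_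
    have h1 : TendstoInMeasure P (fun k ω => L (ns k) 0 ω - a (ns k)) atTop (S 0) :=
      ha.comp hns
    obtain ⟨ms, -, hms⟩ := h1.exists_seq_tendsto_ae
    refine ⟨ms, ?_⟩
    refine tendsto_integral_of_dominated_convergence (fun _ => 2)
      (fun n => (Real.measurable_arctan.comp
        (((hLm _ 0).sub_const _).add_const v)).aestronglyMeasurable)
      (integrable_const 2)
      (fun n => Eventually.of_forall fun ω => by
        rw [Real.norm_eq_abs]
        exact atn_bd _) ?_
    filter_upwards [hms] with ω hω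
    exact (Real.continuous_arctan.tendsto _).comp (hω.add_const v)
  have hclose : ∀ a b : ℕ → ℝ, TendstoInMeasure P (fun k ω => L k 0 ω - a k) atTop (S 0) →
      (∀ k, ∫ ω, Real.arctan (L k 0 ω - b k) ∂P = ∫ ω, Real.arctan (S 0 ω) ∂P) →
      Tendsto (fun k => a k - b k) atTop (𝓝 0) := fun a b ha hb =>
    centre_close (fun k => L k 0) (fun k => hLm k 0) (S 0) (h.Sm 0) a b (hmean a ha) hb
  refine ⟨?_, fun b hb => ⟨⟨?_, fun hb' => ⟨b, hb'⟩⟩, ⟨?_, fun hb' => ⟨b, hb'⟩⟩⟩⟩
  · have hu := fun k => shift_unique (P := P) (L k 0) (hLm k 0) _ r1 r2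
    choose b hb hbu using hu
    exact ⟨b, hb, fun c hc => funext fun k => hbu k (c k) (hc k)⟩
  · rintro ⟨a, ha⟩
    have h1 : TendstoInMeasure P (fun k ω => L k 0 ω - a k) atTop (S 0) :=
      tendstoInMeasure_of_tendsto_ae (fun k => ((hLm k 0).sub_const _).aestronglyMeasurable) ha
    have h2 := hclose a b h1 hb
    filter_upwards [ha] with ω hω
    have h3 := hω.add h2
    rw [add_zero] at h3
    refine h3.congr fun k => ?_
    ring
  · rintro ⟨a, ha⟩
    have h2 := hclose a b ha hb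
    rw [tendstoInMeasure_iff_dist] at ha ⊢
    intro ε hε
    have h3 := ha (ε / 2) (by positivity)
    refine tendsto_of_tendsto_of_tendsto_of_le_of_le' tendsto_const_nhds h3
      (Eventually.of_forall fun k => bot_le) ?_
    filter_upwards [Metric.tendsto_atTop.mp h2 (ε / 2) (by positivity) |>.choose_spec |> fun hh =>
      eventually_atTop.mpr ⟨_, hh⟩] with k hk
    refine measure_mono fun ω hω => ?_
    simp only [Set.mem_ofPred_eq] at hω ⊢
    rw [Real.dist_eq, sub_zero] at hk
    rw [Real.dist_eq] at hω ⊢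
    have h4 : L k 0 ω - b k - S 0 ω = (L k 0 ω - a k - S 0 ω) + (a k - b k) := by ring
    rw [h4] at hω
    have h5 := abs_add_le (L k 0 ω - a k - S 0 ω) (a k - b k)
    linarith

end Pool.Agent.H45.AS
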