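import Mathlib

/-!
# MP_0a6d57_pr: the abstract data behind the centring problem of the Airy sheet

`F t` is the past of the environment up to time `t`, `R t` the value of the stationary top line
at time `t`, `S z` the sheet value `S(x, z)`, `L k z` the last passage value from level `k` to
`(z, 1)`.
-/

namespace Pool.Agent.H45.AS

open MeasureTheory Filter Topology

/-- Abstract data of the centring problem: increasing sigma-algebras `F t` with trivial remote
past, a process `R` adapted to them, a process `S` whose parabolic correction has the pair laws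
of `R`, and adapted approximations `L k z` whose increments in `z` converge to those of `S`. -/
structure Sys {Ω : Type*} [m0 : MeasurableSpace Ω] (P : Measure Ω)
    (F : ℝ → MeasurableSpace Ω) (R S : ℝ → Ω → ℝ) (L : ℕ → ℝ → Ω → ℝ) (x : ℝ) : Prop where
  mono : ∀ s t : ℝ, s ≤ t → F s ≤ F t
  le : ∀ t : ℝ, F t ≤ m0
  triv : ∀ E : Set Ω, MeasurableSet[⨅ t, F t] E → P E = 0 ∨ P E = 1
  Rm : ∀ t : ℝ, Measurable[F t] (R t)
  Sm : ∀ z : ℝ, Measurable (S z)
  law : ∀ (z : ℝ) (i j : ℕ),
    P.map (fun ω => (S (z - i) ω + (x - (z - i)) ^ 2, S (z - j) ω + (x - (z - j)) ^ 2))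
      = P.map (fun ω => (R (-i) ω, R (-j) ω))
  Lm : ∀ (k : ℕ) (z : ℝ), Measurable[F z] (L k z)
  lim : ∀ y z : ℝ, ∀ᵐ ω ∂P,
    Tendsto (fun k => L k z ω - L k y ω) atTop (𝓝 (S z ω - S y ω))

end Pool.Agent.H45.AS
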