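import Pool.Agent.H45.AS.Shm

/-!
# Dichotomy and asymptotic independence
-/

namespace Pool.Agent.H45.AS

open MeasureTheory Filter Topology

variable {Ω : Type*} [m0 : MeasurableSpace Ω] {P : Measure Ω} [IsProbabilityMeasure P]
  {F : ℝ → MeasurableSpace Ω} {R S : ℝ → Ω → ℝ} {L : ℕ → ℝ → Ω → ℝ} {x : ℝ}

/-- Dichotomy for each centring: either the centred values converge almost surely to the sheet
value plus a constant, or they diverge almost surely. -/
theorem dich0 (h : Sys P F R S L x) (a : ℕ → ℝ) :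
    (∃ c : ℝ, ∀ᵐ ω ∂P, Tendsto (fun k => L k 0 ω - a k) atTop (𝓝 (S 0 ω + c))) ∨
      ∀ᵐ ω ∂P, ¬ ∃ l : ℝ, Tendsto (fun k => L k 0 ω - a k) atTop (𝓝 l) := by
  obtain ⟨hs1, hs2, hs3⟩ := h.seq
  set C : Set Ω := {ω | ∃ l : ℝ, Tendsto (fun k => L k 0 ω - a k) atTop (𝓝 l)} with hC
  -- the indicator of the convergence event
  have hind : ∀ n : ℕ, AEStronglyMeasurable[F (-(n : ℝ))] (C.indicator fun _ => (1 : ℝ)) P := by
    intro n
    set Cn : Set Ω := {ω | ∃ l : ℝ, Tendsto (fun k => L k (-(n : ℝ)) ω - a k) atTop (𝓝 l)}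
      with hCn
    have hm : MeasurableSet[F (-(n : ℝ))] Cn :=
      @measurableSet_exists_tendsto ℕ ℝ Ω (F (-(n : ℝ))) _ _ _ _ _ _ atTop _ _
        (fun k => (h.Lm k (-(n : ℝ))).sub_const (a k))
    refine ⟨Cn.indicator fun _ => (1 : ℝ), ?_, ?_⟩
    · exact (@stronglyMeasurable_const _ _ (F (-(n : ℝ))) _ _).indicator hm
    · filter_upwards [h.lim 0 (-(n : ℝ))] with ω hω
      have hiff : ω ∈ C ↔ ω ∈ Cn := by
        constructor
        · rintro ⟨l, hl⟩
          refine ⟨l + (S (-(n : ℝ)) ω - S 0 ω), ?_⟩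
          refine (hl.add hω).congr fun k => ?_
          ring
        · rintro ⟨l, hl⟩
          refine ⟨l - (S (-(n : ℝ)) ω - S 0 ω), ?_⟩
          refine (hl.sub hω).congr fun k => ?_
          ring
      by_cases hc : ω ∈ C
      · rw [Set.indicator_of_mem hc, Set.indicator_of_mem (hiff.mp hc)]
      · rw [Set.indicator_of_notMem hc, Set.indicator_of_notMem (fun h' => hc (hiff.mpr h'))]
  obtain ⟨c, hc⟩ := past_const (fun n : ℕ => F (-(n : ℝ))) hs1 hs2 hs3 _ hind
  by_cases hc1 : c = 1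
  · left
    subst hc1
    have hmem : ∀ᵐ ω ∂P, ω ∈ C := by
      filter_upwards [hc] with ω hω
      by_contra hn
      rw [Set.indicator_of_notMem hn] at hω
      exact zero_ne_one hω
    set X : Ω → ℝ := fun ω => limsup (fun k => L k 0 ω - a k) atTop with hX
    have hXlim : ∀ᵐ ω ∂P, Tendsto (fun k => L k 0 ω - a k) atTop (𝓝 (X ω)) := by
      filter_upwards [hmem] with ω hω
      obtain ⟨l, hl⟩ := hω
      have : X ω = l := hl.limsup_eq
      rw [this]
      exact hl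
    have hY : ∀ n : ℕ, AEStronglyMeasurable[F (-(n : ℝ))] (fun ω => X ω - S 0 ω) P := by
      intro n
      refine aesm_lim (fun k ω => L k (-(n : ℝ)) ω - a k - S (-(n : ℝ)) ω) _ (fun k => ?_) ?_
      · obtain ⟨u, hu, hue⟩ := sheet_meas h (-(n : ℝ))
        refine ⟨fun ω => L k (-(n : ℝ)) ω - a k - u ω, ?_, ?_⟩
        · have h1 : Measurable[F (-(n : ℝ))] (fun ω => L k (-(n : ℝ)) ω - a k - u ω) :=
            ((h.Lm k (-(n : ℝ))).sub_const (a k)).sub hu.measurable
          exact h1.stronglyMeasurable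
        · filter_upwards [hue] with ω hω
          rw [hω]
      · filter_upwards [hXlim, h.lim 0 (-(n : ℝ))] with ω h1 h2
        have h3 := (h1.add h2).sub_const (S (-(n : ℝ)) ω)
        have h4 : X ω + (S (-(n : ℝ)) ω - S 0 ω) - S (-(n : ℝ)) ω = X ω - S 0 ω := by ring
        rw [h4] at h3
        refine h3.congr fun k => ?_
        ring
    obtain ⟨c, hc'⟩ := past_const (fun n : ℕ => F (-(n : ℝ))) hs1 hs2 hs3 _ hY
    refine ⟨c, ?_⟩
    filter_upwards [hXlim, hc'] with ω h1 h2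
    have h3 : X ω = S 0 ω + c := by
      have h2' : X ω - S 0 ω = c := h2
      linarith
    rw [← h3]
    exact h1
  · right
    filter_upwards [hc] with ω hω hcon
    have h1 : ω ∈ C := hcon
    rw [Set.indicator_of_mem h1] at hω
    exact hc1 hω.symm

/-- Asymptotic independence of `L k 0 - S 0` from every integrable random variable, uniformly
over bounded Lipschitz test functions. -/
theorem indep0 (h : Sys P F R S L x) (φ : ℕ → ℝ → ℝ) (hφ : ∀ k, LipschitzWith 1 (φ k))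
    (hb : ∀ k u, |φ k u| ≤ 1) (Z : Ω → ℝ) (hZ : Integrable Z P) :
    Tendsto (fun k => (∫ ω, Z ω * φ k (L k 0 ω - S 0 ω) ∂P) -
      (∫ ω, Z ω ∂P) * ∫ ω, φ k (L k 0 ω - S 0 ω) ∂P) atTop (𝓝 0) := by
  obtain ⟨hs1, hs2, hs3⟩ := h.seq
  have hLm : ∀ k z, Measurable (L k z) := fun k z => (h.Lm k z).mono (h.le z) le_rfl
  rw [Metric.tendsto_atTop]
  intro ε hε
  obtain ⟨n, hn⟩ := past_unif (fun n : ℕ => F (-(n : ℝ))) hs1 hs2 hs3 Z hZ (ε / 4)
    (by positivity)
  set D : ℕ → Ω → ℝ := fun k ω => L k 0 ω - S 0 ω with hD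
  set D' : ℕ → Ω → ℝ := fun k ω => L k (-(n : ℝ)) ω - S (-(n : ℝ)) ω with hD'
  have hDm : ∀ k, Measurable (D k) := fun k => (hLm k 0).sub (h.Sm 0)
  have hD'm : ∀ k, Measurable (D' k) := fun k => (hLm k _).sub (h.Sm _)
  set e : ℕ → Ω → ℝ := fun k ω => min |D k ω - D' k ω| 2 with he
  have hem : ∀ k, Measurable (e k) := fun k =>
    (((hDm k).sub (hD'm k)).abs).min measurable_const
  have he0 : ∀ k ω, 0 ≤ e k ω := fun k ω => le_min (abs_nonneg _) zero_le_two
  have he2 : ∀ k ω, e k ω ≤ 2 := fun k ω => min_le_right _ _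
  have helim : ∀ᵐ ω ∂P, Tendsto (fun k => e k ω) atTop (𝓝 0) := by
    filter_upwards [h.lim 0 (-(n : ℝ))] with ω hω
    have h1 : Tendsto (fun k => |D k ω - D' k ω|) atTop (𝓝 0) := by
      have h2 : Tendsto (fun k => D k ω - D' k ω) atTop (𝓝 0) := by
        have h3 := (hω.const_sub (S (-(n : ℝ)) ω - S 0 ω))
        rw [sub_self] at h3
        refine h3.congr fun k => ?_
        simp only [hD, hD']
        ring
      simpa using h2.abs
    have h4 := h1.min (tendsto_const_nhds (x := (2 : ℝ)))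
    simpa using h4
  -- the pointwise comparison
  have hcmp : ∀ k ω, |φ k (D k ω) - φ k (D' k ω)| ≤ e k ω := by
    intro k ω
    refine le_min ?_ ?_
    · have h1 := (hφ k).dist_le_mul (D k ω) (D' k ω)
      simpa [Real.dist_eq] using h1
    · have h1 := abs_sub (φ k (D k ω)) (φ k (D' k ω))
      have h2 := hb k (D k ω)
      have h3 := hb k (D' k ω)
      linarith
  have hφD : ∀ k, Measurable (fun ω => φ k (D k ω)) := fun k =>
    (hφ k).continuous.measurable.comp (hDm k)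
  have hφD' : ∀ k, Measurable (fun ω => φ k (D' k ω)) := fun k =>
    (hφ k).continuous.measurable.comp (hD'm k)
  have hint : ∀ (Y : Ω → ℝ), Integrable Y P →
      Tendsto (fun k => ∫ ω, |Y ω| * e k ω ∂P) atTop (𝓝 0) := by
    intro Y hY
    have h1 := tendsto_integral_of_dominated_convergence (μ := P)
      (F := fun k ω => |Y ω| * e k ω) (f := fun _ => 0) (fun ω => |Y ω| * 2)
      (fun k => hY.abs.aestronglyMeasurable.mul (hem k).aestronglyMeasurable)
      (hY.abs.mul_const 2)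
      (fun k => Eventually.of_forall fun ω => by
        rw [Real.norm_eq_abs, abs_mul, abs_abs, abs_of_nonneg (he0 k ω)]
        exact mul_le_mul_of_nonneg_left (he2 k ω) (abs_nonneg _))
      (by
        filter_upwards [helim] with ω hω
        have := hω.const_mul |Y ω|
        simpa using this)
    simpa using h1
  have hdiff : ∀ (Y : Ω → ℝ), Integrable Y P → ∀ k,
      |(∫ ω, Y ω * φ k (D k ω) ∂P) - ∫ ω, Y ω * φ k (D' k ω) ∂P| ≤
        ∫ ω, |Y ω| * e k ω ∂P := by
    intro Y hY k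
    have i1 : Integrable (fun ω => Y ω * φ k (D k ω)) P :=
      hY.mul_bdd (c := 1) (hφD k).aestronglyMeasurable (Eventually.of_forall fun ω => by
        simpa [Real.norm_eq_abs] using hb k (D k ω))
    have i2 : Integrable (fun ω => Y ω * φ k (D' k ω)) P :=
      hY.mul_bdd (c := 1) (hφD' k).aestronglyMeasurable (Eventually.of_forall fun ω => by
        simpa [Real.norm_eq_abs] using hb k (D' k ω))
    have i3 : Integrable (fun ω => |Y ω| * e k ω) P :=
      hY.abs.mul_bdd (c := 2) (hem k).aestronglyMeasurable (Eventually.of_forall fun ω => by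
        rw [Real.norm_eq_abs, abs_of_nonneg (he0 k ω)]
        exact he2 k ω)
    rw [← integral_sub i1 i2]
    refine abs_integral_le_integral_abs.trans (integral_mono (i1.sub i2).abs i3 fun ω => ?_)
    have h1 : Y ω * φ k (D k ω) - Y ω * φ k (D' k ω) = Y ω * (φ k (D k ω) - φ k (D' k ω)) := by
      ring
    simp only [h1, abs_mul]
    exact mul_le_mul_of_nonneg_left (hcmp k ω) (abs_nonneg _)
  -- the main term
  have hmain : ∀ k, |(∫ ω, Z ω * φ k (D' k ω) ∂P) -
      (∫ ω, Z ω ∂P) * ∫ ω, φ k (D' k ω) ∂P| ≤ ε / 4 := by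
    intro k
    refine hn (fun ω => φ k (D' k ω)) ?_ (Eventually.of_forall fun ω => hb k _)
    obtain ⟨u, hu, hue⟩ := sheet_meas h (-(n : ℝ))
    refine ⟨fun ω => φ k (L k (-(n : ℝ)) ω - u ω), ?_, ?_⟩
    · have h1 : Measurable[F (-(n : ℝ))] (fun ω => φ k (L k (-(n : ℝ)) ω - u ω)) :=
        (hφ k).continuous.measurable.comp ((h.Lm k (-(n : ℝ))).sub hu.measurable)
      exact h1.stronglyMeasurable
    · filter_upwards [hue] with ω hω
      simp only [hD']
      rw [hω]
  set M : ℝ := |∫ ω, Z ω ∂P| with hM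
  have hM0 : 0 ≤ M := abs_nonneg _
  have l1 := (hint Z hZ).eventually (gt_mem_nhds (show (0 : ℝ) < ε / 4 by positivity))
  have l2 := (hint (fun _ => 1) (integrable_const 1)).eventually
    (gt_mem_nhds (show (0 : ℝ) < ε / (4 * (M + 1)) by positivity))
  obtain ⟨N, hN⟩ := (l1.and l2).exists_forall_of_atTop
  refine ⟨N, fun k hk => ?_⟩
  obtain ⟨h1, h2⟩ := hN k hk
  have d1 := hdiff Z hZ k
  have d2 := hdiff (fun _ => 1) (integrable_const 1) k
  simp only [one_mul, abs_one] at d2 h2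
  have d3 := hmain k
  have d4 : |(∫ ω, Z ω ∂P) * ((∫ ω, φ k (D k ω) ∂P) - ∫ ω, φ k (D' k ω) ∂P)| ≤ ε / 4 := by
    rw [abs_mul]
    calc M * |(∫ ω, φ k (D k ω) ∂P) - ∫ ω, φ k (D' k ω) ∂P|
        ≤ (M + 1) * (ε / (4 * (M + 1))) := by
          refine mul_le_mul (by linarith) (d2.trans h2.le) (abs_nonneg _) (by positivity)
      _ = ε / 4 := by field_simp
  rw [Real.dist_eq, sub_zero]
  have hsplit : (∫ ω, Z ω * φ k (D k ω) ∂P) - (∫ ω, Z ω ∂P) * ∫ ω, φ k (D k ω) ∂P =
      ((∫ ω, Z ω * φ k (D k ω) ∂P) - ∫ ω, Z ω * φ k (D' k ω) ∂P) +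
      ((∫ ω, Z ω * φ k (D' k ω) ∂P) - (∫ ω, Z ω ∂P) * ∫ ω, φ k (D' k ω) ∂P) -
      (∫ ω, Z ω ∂P) * ((∫ ω, φ k (D k ω) ∂P) - ∫ ω, φ k (D' k ω) ∂P) := by ring
  have hgoal : |(∫ ω, Z ω * φ k (D k ω) ∂P) - (∫ ω, Z ω ∂P) * ∫ ω, φ k (D k ω) ∂P| < ε := by
    rw [hsplit]
    have t1 := abs_le.mp d1
    have t2 := abs_le.mp d3
    have t3 := abs_le.mp d4
    rw [abs_lt]
    constructor <;> linarith [t1.1, t1.2, t2.1, t2.2, t3.1, t3.2]
  exact hgoal

end Pool.Agent.H45.AS
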