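import Mathlib

/-!
# Trivial remote past: uniform asymptotic independence

For a decreasing sequence of sigma-algebras with trivial intersection, every integrable variable
is asymptotically uncorrelated with all bounded variables measurable with respect to the n-th
sigma-algebra, uniformly.
-/

namespace Pool.Agent.H45.AS

open MeasureTheory Filter Topology

/-- Projections onto a decreasing sequence of closed subspaces converge. -/
private theorem proj_dec {E : Type*} [NormedAddCommGroup E] [InnerProductSpace ℝ E]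
    [CompleteSpace E] (H : ℕ → Submodule ℝ E) (hc : ∀ n, IsClosed (H n : Set E))
    (hH : Antitone H) (z : E) :
    ∃ p : ℕ → E, ∃ q : E, (∀ n, p n ∈ H n) ∧ (∀ n, ∀ w ∈ H n, inner ℝ (z - p n) w = 0) ∧
      (∀ n, q ∈ H n) ∧ Tendsto p atTop (𝓝 q) := by
  have : ∀ n, CompleteSpace (H n) := fun n => (hc n).completeSpace_coe
  have hmono : Monotone (fun n => (H n)ᗮ) := fun i j hij =>
    Submodule.orthogonal_le (hH hij)
  have ht := Submodule.starProjection_tendsto_closure_iSup (fun n => (H n)ᗮ) hmono z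
  set y := (⨆ i, (H i)ᗮ).topologicalClosure.starProjection z with hy
  have hp : ∀ n, (H n).starProjection z = z - (H n)ᗮ.starProjection z := by
    intro n
    have h1 := Submodule.starProjection_add_starProjection_orthogonal (K := H n) z
    rw [← h1]
    simp
  have hlim : Tendsto (fun n => (H n).starProjection z) atTop (𝓝 (z - y)) := by
    have h2 : (fun n => (H n).starProjection z) = fun n => z - (H n)ᗮ.starProjection z :=
      funext hp
    rw [h2]
    exact tendsto_const_nhds.sub ht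
  refine ⟨fun n => (H n).starProjection z, z - y, fun n => ?_, fun n w hw => ?_, fun n => ?_, hlim⟩
  · exact Submodule.starProjection_apply_mem (H n) z
  · exact Submodule.starProjection_inner_eq_zero (K := H n) z w hw
  · refine (hc n).mem_of_tendsto hlim ?_
    filter_upwards [eventually_ge_atTop n] with m hm
    exact hH hm (Submodule.starProjection_apply_mem (H m) z)

/-- A function that is, for every `n`, almost everywhere equal to an `F n`-measurable function is
almost everywhere constant. -/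
theorem past_const {Ω : Type*} [m0 : MeasurableSpace Ω] {P : Measure Ω}
    [IsProbabilityMeasure P] (F : ℕ → MeasurableSpace Ω) (hF : Antitone F)
    (hle : ∀ n, F n ≤ m0) (ht : ∀ E : Set Ω, MeasurableSet[⨅ n, F n] E → P E = 0 ∨ P E = 1)
    (f : Ω → ℝ) (hf : ∀ n, AEStronglyMeasurable[F n] f P) : ∃ c : ℝ, f =ᵐ[P] fun _ => c := by
  choose g hg hfg using hf
  set G : Ω → ℝ := fun ω => limsup (fun n => g n ω) atTop with hG
  have hGm : ∀ m, Measurable[F m] G := by
    intro m
    have h1 : G = fun ω => limsup (fun n => g (n + m) ω) atTop := by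
      funext ω
      exact (limsup_nat_add (fun n => g n ω) m).symm
    rw [h1]
    refine Measurable.limsup (mδ := F m) (fun n => ?_)
    exact ((hg (n + m)).measurable).mono (hF (Nat.le_add_left m n)) le_rfl
  have hfG : f =ᵐ[P] G := by
    have h1 : ∀ᵐ ω ∂P, ∀ n, f ω = g n ω := ae_all_iff.mpr hfg
    filter_upwards [h1] with ω hω
    simp only [hG]
    have h2 : (fun n => g n ω) = fun _ => f ω := funext fun n => (hω n).symm
    rw [h2, limsup_const]
  have hGi : Measurable[⨅ n, F n] G := by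
    intro s hs
    rw [MeasurableSpace.measurableSet_iInf]
    exact fun n => hGm n hs
  obtain ⟨c, hc⟩ : ∃ c, G =ᵐ[P] Function.const Ω c := by
    refine Filter.exists_eventuallyEq_const_of_forall_separating MeasurableSet (fun U hU => ?_)
    have hm : MeasurableSet[⨅ n, F n] (G ⁻¹' U) := hGi hU
    have hm0 : MeasurableSet (G ⁻¹' U) := (hle 0) _ (hGm 0 hU)
    rcases ht _ hm with h | h
    · right
      have h3 : ∀ᵐ ω ∂P, ω ∉ G ⁻¹' U := measure_eq_zero_iff_ae_notMem.mp h
      exact h3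
    · left
      have h3 : ∀ᵐ ω ∂P, ω ∈ G ⁻¹' U := (prob_compl_eq_zero_iff hm0).mpr h
      exact h3
  exact ⟨c, hfG.trans hc⟩

/-- Uniform asymptotic independence for square integrable variables. -/
private theorem unif_two {Ω : Type*} [m0 : MeasurableSpace Ω] {P : Measure Ω}
    [IsProbabilityMeasure P] (F : ℕ → MeasurableSpace Ω) (hF : Antitone F)
    (hle : ∀ n, F n ≤ m0) (ht : ∀ E : Set Ω, MeasurableSet[⨅ n, F n] E → P E = 0 ∨ P E = 1)
    (Z : Ω → ℝ) (hZ : MemLp Z 2 P) (ε : ℝ) (hε : 0 < ε) :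
    ∃ n : ℕ, ∀ W : Ω → ℝ, AEStronglyMeasurable[F n] W P → (∀ᵐ ω ∂P, |W ω| ≤ 1) →
      |(∫ ω, Z ω * W ω ∂P) - (∫ ω, Z ω ∂P) * ∫ ω, W ω ∂P| ≤ ε := by
  set H : ℕ → Submodule ℝ (Lp ℝ 2 P) := fun n => lpMeas ℝ ℝ (F n) 2 P with hHdef
  have hc : ∀ n, IsClosed (H n : Set (Lp ℝ 2 P)) := by
    intro n
    exact isClosed_aestronglyMeasurable (hle n)
  have hH : Antitone H := by
    intro i j hij f hf
    rw [hHdef] at hf ⊢
    rw [mem_lpMeas_iff_aestronglyMeasurable] at hf ⊢
    exact hf.mono (hF hij)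
  set z : Lp ℝ 2 P := hZ.toLp Z with hz
  obtain ⟨p, q, hp, hpo, hq, hlim⟩ := proj_dec H hc hH z
  obtain ⟨c, hqc⟩ := past_const F hF hle ht (q : Ω → ℝ)
    (fun n => mem_lpMeas_iff_aestronglyMeasurable.mp (hq n))
  have hz_ae : (z : Ω → ℝ) =ᵐ[P] Z := hZ.coeFn_toLp
  -- the inner product with a bounded variable
  have key : ∀ n, ∀ W : Ω → ℝ, AEStronglyMeasurable[F n] W P → (∀ᵐ ω ∂P, |W ω| ≤ 1) →
      |(∫ ω, Z ω * W ω ∂P) - c * ∫ ω, W ω ∂P| ≤ ‖p n - q‖ := by
    intro n W hW hb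
    have hW0 : AEStronglyMeasurable W P := hW.mono (hle n)
    have hWm : MemLp W 2 P := MemLp.of_bound hW0 1 (by simpa [Real.norm_eq_abs] using hb)
    set w : Lp ℝ 2 P := hWm.toLp W with hw
    have hw_ae : (w : Ω → ℝ) =ᵐ[P] W := hWm.coeFn_toLp
    have hwH : w ∈ H n := by
      rw [hHdef, mem_lpMeas_iff_aestronglyMeasurable]
      exact hW.congr hw_ae.symm
    have e1 : inner ℝ z w = ∫ ω, Z ω * W ω ∂P := by
      rw [L2.inner_def]
      refine integral_congr_ae ?_
      filter_upwards [hz_ae, hw_ae] with ω h1 h2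
      rw [h1, h2]
      simp [mul_comm]
    have e2 : inner ℝ q w = c * ∫ ω, W ω ∂P := by
      rw [L2.inner_def, ← integral_const_mul]
      refine integral_congr_ae ?_
      filter_upwards [hqc, hw_ae] with ω h1 h2
      rw [h1, h2]
      simp [mul_comm]
    have e3 : inner ℝ z w = inner ℝ (p n) w := by
      have := hpo n w hwH
      rw [inner_sub_left] at this
      linarith
    have hw1 : ‖w‖ ≤ 1 := by
      have h4 := Lp.norm_le_of_ae_bound (p := 2) (f := w) (C := 1) zero_le_one (by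
        filter_upwards [hw_ae, hb] with ω h1 h2
        rw [h1, Real.norm_eq_abs]
        exact h2)
      have h4' : measureUnivNNReal P = 1 := by simp [measureUnivNNReal]
      rw [h4'] at h4
      simpa using h4
    rw [← e1, ← e2, e3, ← inner_sub_left]
    calc |inner ℝ (p n - q) w| ≤ ‖p n - q‖ * ‖w‖ := abs_real_inner_le_norm _ _
      _ ≤ ‖p n - q‖ * 1 := by gcongr
      _ = ‖p n - q‖ := mul_one _
  have hnorm : Tendsto (fun n => ‖p n - q‖) atTop (𝓝 0) := by
    have h5 : Tendsto (fun n => p n - q) atTop (𝓝 (q - q)) := hlim.sub tendsto_const_nhds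
    rw [sub_self] at h5
    simpa using h5.norm
  have hcz : c = ∫ ω, Z ω ∂P := by
    have h6 : ∀ n, |(∫ ω, Z ω ∂P) - c| ≤ ‖p n - q‖ := by
      intro n
      have := key n (fun _ => 1) (aestronglyMeasurable_const) (by simp)
      simpa using this
    have h7 : |(∫ ω, Z ω ∂P) - c| ≤ 0 := ge_of_tendsto' hnorm h6
    have h8 := abs_nonpos_iff.mp h7
    linarith
  obtain ⟨n, hn⟩ := (hnorm.eventually (gt_mem_nhds hε)).exists
  refine ⟨n, fun W hW hb => ?_⟩
  rw [← hcz]
  exact (key n W hW hb).trans hn.le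

/-- **Uniform asymptotic independence** of an integrable variable from the remote past. -/
theorem past_unif {Ω : Type*} [m0 : MeasurableSpace Ω] {P : Measure Ω}
    [IsProbabilityMeasure P] (F : ℕ → MeasurableSpace Ω) (hF : Antitone F)
    (hle : ∀ n, F n ≤ m0) (ht : ∀ E : Set Ω, MeasurableSet[⨅ n, F n] E → P E = 0 ∨ P E = 1)
    (Z : Ω → ℝ) (hZ : Integrable Z P) (ε : ℝ) (hε : 0 < ε) :
    ∃ n : ℕ, ∀ W : Ω → ℝ, AEStronglyMeasurable[F n] W P → (∀ᵐ ω ∂P, |W ω| ≤ 1) →
      |(∫ ω, Z ω * W ω ∂P) - (∫ ω, Z ω ∂P) * ∫ ω, W ω ∂P| ≤ ε := by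
  -- approximate `Z` by a bounded function in mean
  obtain ⟨Y, hY2, hY1⟩ : ∃ Y : Ω → ℝ, MemLp Y 2 P ∧ ∫ ω, |Z ω - Y ω| ∂P ≤ ε / 3 := by
    have h1 : MemLp Z 1 P := memLp_one_iff_integrable.mpr hZ
    obtain ⟨g, hg, hgm⟩ := h1.exists_simpleFunc_eLpNorm_sub_lt (by norm_num)
      (ε := ENNReal.ofReal (ε / 3)) (by
        have : 0 < ENNReal.ofReal (ε / 3) := by positivity
        exact this.ne')
    refine ⟨g, ?_, ?_⟩
    · exact (SimpleFunc.memLp_of_isFiniteMeasure g 2 P)
    · have h2 : Integrable (fun ω => Z ω - g ω) P := hZ.sub (memLp_one_iff_integrable.mp hgm)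
      have h3 : eLpNorm (Z - ⇑g) 1 P = ENNReal.ofReal (∫ ω, |Z ω - g ω| ∂P) := by
        rw [eLpNorm_one_eq_lintegral_enorm, ofReal_integral_eq_lintegral_ofReal h2.abs
          (Eventually.of_forall fun ω => abs_nonneg _)]
        refine lintegral_congr fun ω => ?_
        simp [Real.enorm_eq_ofReal_abs]
      rw [h3] at hg
      exact ((ENNReal.ofReal_lt_ofReal_iff (by positivity)).mp hg).le
  have hYi : Integrable Y P := hY2.integrable one_le_two
  obtain ⟨n, hn⟩ := unif_two F hF hle ht Y hY2 (ε / 3) (by positivity)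
  refine ⟨n, fun W hW hb => ?_⟩
  have hW0 : AEStronglyMeasurable W P := hW.mono (hle n)
  have hWi : Integrable W P :=
    (memLp_one_iff_integrable.mp (MemLp.of_bound hW0 1 (by simpa [Real.norm_eq_abs] using hb)))
  have hW1 : |∫ ω, W ω ∂P| ≤ 1 := by
    have := norm_integral_le_of_norm_le_const (μ := P) (f := W) (C := 1)
      (by simpa [Real.norm_eq_abs] using hb)
    simpa [Real.norm_eq_abs] using this
  have hZY : Integrable (fun ω => Z ω - Y ω) P := hZ.sub hYi
  have hZW : Integrable (fun ω => Z ω * W ω) P :=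
    hZ.mul_bdd (c := 1) hW0 (by simpa [Real.norm_eq_abs] using hb)
  have hYW : Integrable (fun ω => Y ω * W ω) P :=
    hYi.mul_bdd (c := 1) hW0 (by simpa [Real.norm_eq_abs] using hb)
  have hd1 : |(∫ ω, Z ω * W ω ∂P) - ∫ ω, Y ω * W ω ∂P| ≤ ε / 3 := by
    rw [← integral_sub hZW hYW]
    calc |∫ ω, (Z ω * W ω - Y ω * W ω) ∂P| ≤ ∫ ω, |Z ω * W ω - Y ω * W ω| ∂P :=
          abs_integral_le_integral_abs
      _ ≤ ∫ ω, |Z ω - Y ω| ∂P := by
          refine integral_mono_ae (hZW.sub hYW).abs hZY.abs ?_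
          filter_upwards [hb] with ω h2
          have : Z ω * W ω - Y ω * W ω = (Z ω - Y ω) * W ω := by ring
          simp only [this, abs_mul]
          calc |Z ω - Y ω| * |W ω| ≤ |Z ω - Y ω| * 1 := by gcongr
            _ = _ := mul_one _
      _ ≤ ε / 3 := hY1
  have hd2 : |(∫ ω, Z ω ∂P) - ∫ ω, Y ω ∂P| ≤ ε / 3 := by
    rw [← integral_sub hZ hYi]
    exact abs_integral_le_integral_abs.trans hY1
  have hd3 := hn W hW hb
  have hd4 : |((∫ ω, Z ω ∂P) - ∫ ω, Y ω ∂P) * ∫ ω, W ω ∂P| ≤ ε / 3 := by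
    rw [abs_mul]
    calc _ ≤ ε / 3 * 1 := by gcongr
      _ = _ := mul_one _
  have hsplit : (∫ ω, Z ω * W ω ∂P) - (∫ ω, Z ω ∂P) * ∫ ω, W ω ∂P =
      ((∫ ω, Z ω * W ω ∂P) - ∫ ω, Y ω * W ω ∂P) +
      ((∫ ω, Y ω * W ω ∂P) - (∫ ω, Y ω ∂P) * ∫ ω, W ω ∂P) -
      ((∫ ω, Z ω ∂P) - ∫ ω, Y ω ∂P) * ∫ ω, W ω ∂P := by ring
  rw [hsplit]
  have t1 := abs_le.mp hd1
  have t2 := abs_le.mp hd3
  have t3 := abs_le.mp hd4
  rw [abs_le]
  constructor <;> linarith [t1.1, t1.2, t2.1, t2.2, t3.1, t3.2]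

end Pool.Agent.H45.AS
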