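import Pool.Agent.H45.AS.Def
import Pool.Agent.H45.AS.Past
import Pool.Agent.H45.AS.Avg

/-!
# The sheet value is measurable with respect to the past: recovery of the additive constant
-/

namespace Pool.Agent.H45.AS

open MeasureTheory Filter Topology

/-- The arctangent is 1-Lipschitz. -/
theorem atn_lip (a b : ℝ) : |Real.arctan a - Real.arctan b| ≤ |a - b| := by
  have h1 : LipschitzWith 1 Real.arctan := by
    refine lipschitzWith_of_nnnorm_deriv_le Real.differentiable_arctan (fun x => ?_)
    rw [Real.deriv_arctan]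
    have h2 : ‖(1 / (1 + x ^ 2) : ℝ)‖ ≤ 1 := by
      rw [Real.norm_eq_abs, abs_of_nonneg (by positivity)]
      rw [div_le_one (by positivity)]
      nlinarith [sq_nonneg x]
    exact_mod_cast h2
  have h3 := h1.dist_le_mul a b
  simpa [Real.dist_eq] using h3

/-- The arctangent is bounded by two. -/
theorem atn_bd (a : ℝ) : |Real.arctan a| ≤ 2 := by
  have h1 := Real.arctan_lt_pi_div_two a
  have h2 := Real.neg_pi_div_two_lt_arctan a
  have h3 := Real.pi_le_four
  rw [abs_le]
  constructor <;> linarith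

variable {Ω : Type*} [m0 : MeasurableSpace Ω] {P : Measure Ω}

/-- Almost sure limits of functions measurable with respect to a smaller sigma-algebra. -/
theorem aesm_lim {m : MeasurableSpace Ω} (f : ℕ → Ω → ℝ)
    (g : Ω → ℝ) (hf : ∀ n, AEStronglyMeasurable[m] (f n) P)
    (h : ∀ᵐ ω ∂P, Tendsto (fun n => f n ω) atTop (𝓝 (g ω))) : AEStronglyMeasurable[m] g P := by
  choose u hu huf using hf
  refine ⟨fun ω => limsup (fun n => u n ω) atTop, ?_, ?_⟩
  · have h1 : Measurable[m] (fun ω => limsup (fun n => u n ω) atTop) :=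
      Measurable.limsup (mδ := m) (fun n => (hu n).measurable)
    exact h1.stronglyMeasurable
  · have h2 : ∀ᵐ ω ∂P, ∀ n, f n ω = u n ω := ae_all_iff.mpr huf
    filter_upwards [h, h2] with ω h3 h4
    have h5 : (fun n => u n ω) = fun n => f n ω := funext fun n => (h4 n).symm
    rw [h5]
    exact h3.limsup_eq.symm

variable {F : ℝ → MeasurableSpace Ω} {R S : ℝ → Ω → ℝ} {L : ℕ → ℝ → Ω → ℝ} {x : ℝ}

/-- The integer past times form a decreasing sequence with trivial intersection. -/
theorem Sys.seq (h : Sys P F R S L x) :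
    Antitone (fun n : ℕ => F (-(n : ℝ))) ∧ (∀ n : ℕ, F (-(n : ℝ)) ≤ m0) ∧
      ∀ E : Set Ω, MeasurableSet[⨅ n : ℕ, F (-(n : ℝ))] E → P E = 0 ∨ P E = 1 := by
  refine ⟨fun i j hij => h.mono _ _ (neg_le_neg (by exact_mod_cast hij)), fun n => h.le _,
    fun E hE => h.triv E ?_⟩
  rw [MeasurableSpace.measurableSet_iInf] at hE ⊢
  intro t
  obtain ⟨n, hn⟩ := exists_nat_ge (-t)
  exact (h.mono (-(n : ℝ)) t (by linarith)) E (hE n)

variable [IsProbabilityMeasure P]

/-- Bounded measurable functions are integrable. -/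
theorem bdd_int (f : Ω → ℝ) (C : ℝ) (hf : AEStronglyMeasurable f P)
    (hb : ∀ ω, |f ω| ≤ C) : Integrable f P :=
  memLp_one_iff_integrable.mp (MemLp.of_bound hf C (Eventually.of_forall fun ω => by
    simpa [Real.norm_eq_abs] using hb ω))

/-- Mean of the arctangent of a shifted variable: strict monotonicity. -/
theorem mean_lt (X : Ω → ℝ) (hX : Measurable X) (v w : ℝ) (hvw : v < w) :
    ∫ ω, Real.arctan (X ω + v) ∂P < ∫ ω, Real.arctan (X ω + w) ∂P := by
  have hm : ∀ u : ℝ, Measurable (fun ω => Real.arctan (X ω + u)) := fun u =>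
    Real.measurable_arctan.comp (hX.add_const u)
  have hi : ∀ u : ℝ, Integrable (fun ω => Real.arctan (X ω + u)) P := fun u =>
    bdd_int _ 2 (hm u).aestronglyMeasurable fun ω => atn_bd _
  have hpos : ∀ ω, 0 < Real.arctan (X ω + w) - Real.arctan (X ω + v) := fun ω =>
    sub_pos.mpr (Real.arctan_strictMono (by linarith))
  have hI : 0 < ∫ ω, (Real.arctan (X ω + w) - Real.arctan (X ω + v)) ∂P := by
    rw [integral_pos_iff_support_of_nonneg (fun ω => (hpos ω).le) ((hi w).sub (hi v))]
    have h1 : Function.support (fun ω => Real.arctan (X ω + w) - Real.arctan (X ω + v)) =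
        Set.univ := by
      ext ω
      simp only [Function.mem_support, Set.mem_univ, iff_true]
      exact (hpos ω).ne'
    rw [h1]
    simp
  rw [integral_sub (hi w) (hi v)] at hI
  linarith

/-- Mean of the arctangent of a shifted variable: Lipschitz. -/
theorem mean_lip (X : Ω → ℝ) (hX : Measurable X) (v w : ℝ) :
    |(∫ ω, Real.arctan (X ω + v) ∂P) - ∫ ω, Real.arctan (X ω + w) ∂P| ≤ |v - w| := by
  have hm : ∀ u : ℝ, Measurable (fun ω => Real.arctan (X ω + u)) := fun u =>
    Real.measurable_arctan.comp (hX.add_const u)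
  have hi : ∀ u : ℝ, Integrable (fun ω => Real.arctan (X ω + u)) P := fun u =>
    bdd_int _ 2 (hm u).aestronglyMeasurable fun ω => atn_bd _
  rw [← integral_sub (hi v) (hi w)]
  have h1 := norm_integral_le_of_norm_le_const (μ := P)
    (f := fun ω => Real.arctan (X ω + v) - Real.arctan (X ω + w)) (C := |v - w|)
    (Eventually.of_forall fun ω => by
      rw [Real.norm_eq_abs]
      have := atn_lip (X ω + v) (X ω + w)
      simpa using this)
  simpa [Real.norm_eq_abs] using h1

/-- Averages of the arctangent of the shifted stationary process converge in mean. -/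
private theorem avg_conv (h : Sys P F R S L x) (z v : ℝ) :
    Tendsto (fun n : ℕ => ∫ ω, |(∑ i ∈ Finset.range n,
      Real.arctan (S (z - i) ω + (x - (z - i)) ^ 2 + v)) / n -
        ∫ ω', Real.arctan (R 0 ω' + v) ∂P| ∂P) atTop (𝓝 0) := by
  set φ : ℝ := ∫ ω', Real.arctan (R 0 ω' + v) ∂P with hφ
  have hRm : ∀ t, Measurable (R t) := fun t => (h.Rm t).mono (h.le t) le_rfl
  have hφb : |φ| ≤ 2 := by
    have h1 := norm_integral_le_of_norm_le_const (μ := P)
      (f := fun ω => Real.arctan (R 0 ω + v)) (C := 2)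
      (Eventually.of_forall fun ω => by
        rw [Real.norm_eq_abs]
        exact atn_bd _)
    simpa [Real.norm_eq_abs] using h1
  set U : ℕ → Ω → ℝ := fun i ω => S (z - i) ω + (x - (z - i)) ^ 2 with hU
  have hUm : ∀ i, Measurable (U i) := fun i => (h.Sm _).add_const _
  set V : ℕ → Ω → ℝ := fun i ω => Real.arctan (U i ω + v) - φ with hV
  have hVm : ∀ i, Measurable (V i) := fun i =>
    (Real.measurable_arctan.comp ((hUm i).add_const v)).sub_const φ
  have hVb : ∀ i ω, |V i ω| ≤ 4 := by
    intro i ω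
    have h1 := abs_sub (Real.arctan (U i ω + v)) φ
    have h2 := atn_bd (U i ω + v)
    simp only [hV]
    linarith
  -- the covariances of the stationary process
  set Z : ℕ → Ω → ℝ := fun l ω => Real.arctan (R (-l) ω + v) - φ with hZ
  have hZm : ∀ l, Measurable (Z l) := fun l =>
    (Real.measurable_arctan.comp ((hRm _).add_const v)).sub_const φ
  have hZb : ∀ l ω, |Z l ω| ≤ 4 := by
    intro l ω
    have h1 := abs_sub (Real.arctan (R (-l) ω + v)) φ
    have h2 := atn_bd (R (-l) ω + v)
    simp only [hZ]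
    linarith
  have hcov : ∀ i l, ∫ ω, V i ω * V (i + l) ω ∂P = ∫ ω, Z 0 ω * Z l ω ∂P := by
    intro i l
    have hl := h.law (z - i) 0 l
    set G : ℝ × ℝ → ℝ := fun p => (Real.arctan (p.1 + v) - φ) * (Real.arctan (p.2 + v) - φ)
      with hG
    have hGm : Measurable G := by
      simp only [hG]
      fun_prop
    have e1 : ∫ ω, V i ω * V (i + l) ω ∂P =
        ∫ p, G p ∂(P.map (fun ω => (S (z - i - (0 : ℕ)) ω + (x - (z - i - (0 : ℕ))) ^ 2,
          S (z - i - l) ω + (x - (z - i - l)) ^ 2))) := by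
      rw [integral_map]
      · refine integral_congr_ae (Eventually.of_forall fun ω => ?_)
        simp only [hG, hV, hU]
        push_cast
        simp only [sub_zero, sub_sub]
      · exact (((h.Sm _).add_const _).prodMk ((h.Sm _).add_const _)).aemeasurable
      · exact hGm.aestronglyMeasurable
    have e2 : ∫ ω, Z 0 ω * Z l ω ∂P =
        ∫ p, G p ∂(P.map (fun ω => (R (-(0 : ℕ)) ω, R (-l) ω))) := by
      rw [integral_map]
      · exact ((hRm _).prodMk (hRm _)).aemeasurable
      · exact hGm.aestronglyMeasurable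
    rw [e1, e2, hl]
  set α : ℕ → ℝ := fun l => |∫ ω, Z 0 ω * Z l ω ∂P| with hα
  have hα0 : Tendsto α atTop (𝓝 0) := by
    rw [Metric.tendsto_atTop]
    intro ε hε
    obtain ⟨hs1, hs2, hs3⟩ := h.seq
    obtain ⟨n, hn⟩ := past_unif (fun n : ℕ => F (-(n : ℝ))) hs1 hs2 hs3 (Z 0)
      (bdd_int _ 4 (hZm 0).aestronglyMeasurable (hZb 0)) (ε / 8) (by positivity)
    refine ⟨n, fun l hl => ?_⟩
    have hW := hn (fun ω => Z l ω / 4) (by
        have h1 : Measurable[F (-(l : ℝ))] (Z l) := by
          have h2 := h.Rm (-(l : ℝ))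
          exact (Real.measurable_arctan.comp (h2.add_const v)).sub_const φ
        have h3 : Measurable[F (-(n : ℝ))] (fun ω => Z l ω / 4) :=
          (h1.mono (hs1 hl) le_rfl).div_const 4
        exact h3.stronglyMeasurable.aestronglyMeasurable)
      (Eventually.of_forall fun ω => by
        rw [abs_div]
        have := hZb l ω
        norm_num
        linarith)
    have hZ0 : ∫ ω, Z 0 ω ∂P = 0 := by
      have hm0 : Measurable (fun ω => Real.arctan (R (-((0 : ℕ) : ℝ)) ω + v)) :=
        Real.measurable_arctan.comp ((hRm _).add_const v)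
      have hi0 : Integrable (fun ω => Real.arctan (R (-((0 : ℕ) : ℝ)) ω + v)) P :=
        bdd_int _ 2 hm0.aestronglyMeasurable fun ω => atn_bd _
      simp only [hZ]
      rw [integral_sub hi0 (integrable_const φ)]
      simp [hφ]
    rw [hZ0, zero_mul, sub_zero] at hW
    have h4 : ∫ ω, Z 0 ω * (Z l ω / 4) ∂P = (∫ ω, Z 0 ω * Z l ω ∂P) / 4 := by
      rw [← integral_div]
      refine integral_congr_ae (Eventually.of_forall fun ω => ?_)
      simp only
      ring
    rw [h4, abs_div] at hW
    rw [Real.dist_eq, sub_zero]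
    simp only [hα, abs_abs]
    have h5 : |(4 : ℝ)| = 4 := by norm_num
    rw [h5] at hW
    linarith
  have hces := cesaro V 4 (fun i => (hVm i).aestronglyMeasurable) hVb α
    (fun i l => by rw [hcov]) hα0
  -- from the second to the first moment
  have hsq : Tendsto (fun n : ℕ => Real.sqrt (∫ ω, ((∑ i ∈ Finset.range n, V i ω) / n) ^ 2 ∂P))
      atTop (𝓝 0) := by
    have := hces.sqrt
    simpa using this
  have hM : ∀ n : ℕ, Measurable (fun ω => (∑ i ∈ Finset.range n, V i ω) / n) := fun n =>
    (Finset.measurable_sum _ fun i _ => hVm i).div_const _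
  have hMb : ∀ n : ℕ, ∀ ω, |(∑ i ∈ Finset.range n, V i ω) / n| ≤ 4 := by
    intro n ω
    rcases Nat.eq_zero_or_pos n with h0 | h0
    · subst h0
      simp
    · have hn : (0 : ℝ) < n := by exact_mod_cast h0
      rw [abs_div, abs_of_pos hn, div_le_iff₀ hn]
      calc |∑ i ∈ Finset.range n, V i ω| ≤ ∑ i ∈ Finset.range n, |V i ω| :=
            Finset.abs_sum_le_sum_abs _ _
        _ ≤ ∑ i ∈ Finset.range n, 4 := Finset.sum_le_sum fun i _ => hVb i ω
        _ = 4 * n := by simp [mul_comm]
  refine squeeze_zero' (Eventually.of_forall fun n => integral_nonneg fun ω => abs_nonneg _)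
    ?_ hsq
  filter_upwards [eventually_gt_atTop 0] with n hn0
  have hn : (0 : ℝ) < n := by exact_mod_cast hn0
  have h1 : ∀ ω, (∑ i ∈ Finset.range n, Real.arctan (S (z - i) ω + (x - (z - i)) ^ 2 + v)) / n -
      φ = (∑ i ∈ Finset.range n, V i ω) / n := by
    intro ω
    simp only [hV, hU, Finset.sum_sub_distrib, Finset.sum_const, Finset.card_range, nsmul_eq_mul]
    field_simp
  simp_rw [h1]
  set M : Ω → ℝ := fun ω => (∑ i ∈ Finset.range n, V i ω) / n with hMdef
  change ∫ ω, |M ω| ∂P ≤ Real.sqrt (∫ ω, (M ω) ^ 2 ∂P)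
  have hMi : Integrable (fun ω => |M ω|) P :=
    (bdd_int M 4 (hM n).aestronglyMeasurable (hMb n)).abs
  have hM2 : Integrable (fun ω => (M ω) ^ 2) P :=
    bdd_int _ 16 ((hM n).pow_const 2).aestronglyMeasurable (fun ω => by
      have := hMb n ω
      rw [abs_pow]
      have h3 : |M ω| ≤ 4 := this
      nlinarith [abs_nonneg (M ω)])
  refine Real.le_sqrt_of_sq_le ?_
  set a : ℝ := ∫ ω, |M ω| ∂P with ha
  have h4 : 0 ≤ ∫ ω, (|M ω| - a) ^ 2 ∂P := integral_nonneg fun ω => sq_nonneg _
  have h5 : ∫ ω, (|M ω| - a) ^ 2 ∂P = (∫ ω, (M ω) ^ 2 ∂P) - a ^ 2 := by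
    have h6 : ∀ ω, (|M ω| - a) ^ 2 = (M ω) ^ 2 - 2 * a * |M ω| + a ^ 2 := by
      intro ω
      have : |M ω| ^ 2 = (M ω) ^ 2 := sq_abs _
      nlinarith [this]
    simp_rw [h6]
    have h7 : Integrable (fun ω => (M ω) ^ 2 - 2 * a * |M ω|) P := hM2.sub (hMi.const_mul _)
    rw [integral_add h7 (integrable_const _), integral_sub hM2 (hMi.const_mul _),
      integral_const_mul, ← ha]
    simp
    ring
  linarith

/-- **The sheet value is measurable with respect to the past** (up to null sets). -/
theorem sheet_meas (h : Sys P F R S L x) (z : ℝ) : AEStronglyMeasurable[F z] (S z) P := by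
  have hR0 : Measurable (R 0) := (h.Rm 0).mono (h.le 0) le_rfl
  -- the increments
  have hinc : ∀ i : ℕ, AEStronglyMeasurable[F z] (fun ω => S (z - i) ω - S z ω) P := by
    intro i
    refine aesm_lim (fun k ω => L k (z - i) ω - L k z ω) _ (fun k => ?_) (h.lim z (z - i))
    have h1 : Measurable[F z] (L k (z - i)) :=
      (h.Lm k (z - i)).mono (h.mono _ _ (by linarith [Nat.cast_nonneg (α := ℝ) i])) le_rfl
    exact (h1.sub (h.Lm k z)).stronglyMeasurable.aestronglyMeasurable
  set Φ : ℝ → ℝ := fun v => ∫ ω, Real.arctan (R 0 ω + v) ∂P with hΦ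
  have hΦlip : ∀ v w, |Φ v - Φ w| ≤ |v - w| := fun v w => mean_lip (R 0) hR0 v w
  have hΦmono : StrictMono Φ := fun v w hvw => mean_lt (R 0) hR0 v w hvw
  have hΦb : ∀ v, |Φ v| ≤ 2 := by
    intro v
    have h1 := norm_integral_le_of_norm_le_const (μ := P)
      (f := fun ω => Real.arctan (R 0 ω + v)) (C := 2)
      (Eventually.of_forall fun ω => by
        rw [Real.norm_eq_abs]
        exact atn_bd _)
    simpa [Real.norm_eq_abs] using h1
  have hΦc : Continuous Φ := by
    have h1 : LipschitzWith 1 Φ := LipschitzWith.of_dist_le_mul fun v w => by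
      simpa [Real.dist_eq] using hΦlip v w
    exact h1.continuous
  set A : ℕ → ℝ → Ω → ℝ := fun n v ω => (∑ i ∈ Finset.range n,
    Real.arctan (S (z - i) ω + (x - (z - i)) ^ 2 + v)) / n with hA
  have hAlip : ∀ n v w ω, |A n v ω - A n w ω| ≤ |v - w| := by
    intro n v w ω
    rcases Nat.eq_zero_or_pos n with h0 | h0
    · subst h0
      simp [hA]
    · have hn : (0 : ℝ) < n := by exact_mod_cast h0
      simp only [hA]
      rw [← sub_div, ← Finset.sum_sub_distrib, abs_div, abs_of_pos hn, div_le_iff₀ hn]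
      calc |∑ i ∈ Finset.range n, (Real.arctan (S (z - i) ω + (x - (z - i)) ^ 2 + v) -
              Real.arctan (S (z - i) ω + (x - (z - i)) ^ 2 + w))|
          ≤ ∑ i ∈ Finset.range n, |Real.arctan (S (z - i) ω + (x - (z - i)) ^ 2 + v) -
              Real.arctan (S (z - i) ω + (x - (z - i)) ^ 2 + w)| := Finset.abs_sum_le_sum_abs _ _
        _ ≤ ∑ i ∈ Finset.range n, |v - w| := Finset.sum_le_sum fun i _ => by
            have := atn_lip (S (z - i) ω + (x - (z - i)) ^ 2 + v)
              (S (z - i) ω + (x - (z - i)) ^ 2 + w)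
            simpa using this
        _ = |v - w| * n := by simp [mul_comm]
  have hAb : ∀ n v ω, |A n v ω| ≤ 2 := by
    intro n v ω
    rcases Nat.eq_zero_or_pos n with h0 | h0
    · subst h0
      simp [hA]
    · have hn : (0 : ℝ) < n := by exact_mod_cast h0
      simp only [hA]
      rw [abs_div, abs_of_pos hn, div_le_iff₀ hn]
      calc |∑ i ∈ Finset.range n, Real.arctan (S (z - i) ω + (x - (z - i)) ^ 2 + v)|
          ≤ ∑ i ∈ Finset.range n, |Real.arctan (S (z - i) ω + (x - (z - i)) ^ 2 + v)| :=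
            Finset.abs_sum_le_sum_abs _ _
        _ ≤ ∑ i ∈ Finset.range n, 2 := Finset.sum_le_sum fun i _ => atn_bd _
        _ = 2 * n := by simp [mul_comm]
  have hAm : ∀ n v, Measurable (A n v) := by
    intro n v
    refine (Finset.measurable_sum _ fun i _ => ?_).div_const _
    exact Real.measurable_arctan.comp (((h.Sm _).add_const _).add_const _)
  have hrand := lip_rand (P := P) A Φ hAlip hΦlip hAb hΦb hAm (fun v => avg_conv h z v)
    (fun ω => -S z ω) (h.Sm z).neg
  -- the averages at the random point are measurable with respect to the past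
  have hAF : ∀ n, AEStronglyMeasurable[F z] (fun ω => A n (-S z ω) ω) P := by
    intro n
    have h1 : (fun ω => A n (-S z ω) ω) = fun ω => (∑ i ∈ Finset.range n,
        Real.arctan ((S (z - i) ω - S z ω) + (x - (z - i)) ^ 2)) / n := by
      funext ω
      simp only [hA]
      congr 1
      refine Finset.sum_congr rfl fun i _ => ?_
      congr 1
      ring
    rw [h1]
    have h2 : ∀ i : ℕ, AEStronglyMeasurable[F z]
        (fun ω => Real.arctan ((S (z - i) ω - S z ω) + (x - (z - i)) ^ 2)) P := by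
      intro i
      obtain ⟨u, hu, hue⟩ := hinc i
      refine ⟨fun ω => Real.arctan (u ω + (x - (z - i)) ^ 2), ?_, ?_⟩
      · have h3 : Measurable[F z] (fun ω => Real.arctan (u ω + (x - (z - i)) ^ 2)) :=
          Real.measurable_arctan.comp (hu.measurable.add_const _)
        exact h3.stronglyMeasurable
      · filter_upwards [hue] with ω hω
        rw [hω]
    choose u hu hue using h2
    refine ⟨fun ω => (∑ i ∈ Finset.range n, u i ω) / n, ?_, ?_⟩
    · have h3 : Measurable[F z] (fun ω => (∑ i ∈ Finset.range n, u i ω) / n) :=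
        (Finset.measurable_sum _ fun i _ => (hu i).measurable).div_const _
      exact h3.stronglyMeasurable
    · have h4 : ∀ᵐ ω ∂P, ∀ i : ℕ, Real.arctan ((S (z - i) ω - S z ω) + (x - (z - i)) ^ 2) =
          u i ω := ae_all_iff.mpr hue
      filter_upwards [h4] with ω hω
      congr 1
      exact Finset.sum_congr rfl fun i _ => hω i
  have hA0 : ∀ n, Measurable (fun ω => A n (-S z ω) ω) := by
    intro n
    have h1 : (fun ω => A n (-S z ω) ω) = fun ω => (∑ i ∈ Finset.range n,
        Real.arctan (S (z - i) ω + (x - (z - i)) ^ 2 + -S z ω)) / n := rfl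
    rw [h1]
    refine (Finset.measurable_sum _ fun i _ => ?_).div_const _
    exact Real.measurable_arctan.comp (((h.Sm _).add_const _).add (h.Sm z).neg)
  have hΦS : Measurable (fun ω => Φ (-S z ω)) := hΦc.measurable.comp (h.Sm z).neg
  have hmeas : TendstoInMeasure P (fun n ω => A n (-S z ω) ω) atTop (fun ω => Φ (-S z ω)) := by
    refine tendstoInMeasure_of_tendsto_eLpNorm (p := 1) one_ne_zero
      (fun n => (hA0 n).aestronglyMeasurable) hΦS.aestronglyMeasurable ?_
    have h1 : ∀ n, eLpNorm ((fun ω => A n (-S z ω) ω) - fun ω => Φ (-S z ω)) 1 P =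
        ENNReal.ofReal (∫ ω, |A n (-S z ω) ω - Φ (-S z ω)| ∂P) := by
      intro n
      have h2 : Integrable (fun ω => A n (-S z ω) ω - Φ (-S z ω)) P :=
        bdd_int _ 4 ((hA0 n).sub hΦS).aestronglyMeasurable fun ω => by
          have h3 := abs_sub (A n (-S z ω) ω) (Φ (-S z ω))
          have h4 := hAb n (-S z ω) ω
          have h5 := hΦb (-S z ω)
          linarith
      rw [eLpNorm_one_eq_lintegral_enorm, ofReal_integral_eq_lintegral_ofReal h2.abs
        (Eventually.of_forall fun ω => abs_nonneg _)]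
      refine lintegral_congr fun ω => ?_
      simp [Real.enorm_eq_ofReal_abs]
    have h6 : Tendsto (fun n => ENNReal.ofReal (∫ ω, |A n (-S z ω) ω - Φ (-S z ω)| ∂P)) atTop
        (𝓝 (ENNReal.ofReal 0)) := ENNReal.tendsto_ofReal hrand
    rw [ENNReal.ofReal_zero] at h6
    exact h6.congr fun n => (h1 n).symm
  obtain ⟨ns, -, hns⟩ := hmeas.exists_seq_tendsto_ae
  have hΦF : AEStronglyMeasurable[F z] (fun ω => Φ (-S z ω)) P :=
    aesm_lim (fun i ω => A (ns i) (-S z ω) ω) _ (fun i => hAF (ns i)) hns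
  -- invert
  have hemb : MeasurableEmbedding Φ := hΦc.measurableEmbedding hΦmono.injective
  obtain ⟨ψ, hψ, hψΦ⟩ := hemb.exists_measurable_extend (g := (id : ℝ → ℝ)) measurable_id
    (fun _ => ⟨0⟩)
  obtain ⟨u, hu, hue⟩ := hΦF
  refine ⟨fun ω => -ψ (u ω), ?_, ?_⟩
  · have h3 : Measurable[F z] (fun ω => -ψ (u ω)) := (hψ.comp hu.measurable).neg
    exact h3.stronglyMeasurable
  · filter_upwards [hue] with ω hω
    have h4 : ψ (Φ (-S z ω)) = -S z ω := congrFun hψΦ (-S z ω)
    rw [← hω, h4, neg_neg]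

end Pool.Agent.H45.AS
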